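import Pool.Agent.P.MP_042d8e_al.CK.Lab

/-! The group, its labelling and the kernel of the labelling. -/

set_option autoImplicit false
set_option linter.unusedSectionVars false

open scoped commutatorElement

namespace Pool.Agent.P.MP_042d8e_al.CK

open Po Subgroup SemidirectProduct

variable {X S F I : Type} [Group S] [MulAction S X] [Group F]

namespace Dt

variable [Fintype X] [FaithfulSMul S X] [Fintype I] [Finite S] [Finite F] (T : Dt X S F I)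

/-- the group of labelled portraits -/
noncomputable def TT : Subgroup T.PL := closure (Set.range (fun s => T.Ct (s, 1)) ∪
  Set.range T.Rt ∪ Set.range T.ct ∪ Set.range T.ωt)

/-- the group -/
noncomputable def Γ : Subgroup (Po X S) := T.TT.map (MonoidHom.fst _ _)

/-- the kernel of the labelling -/
def K0 : Subgroup (Po X S) :=
  closure {k | ∃ g ∈ T.Γ, ∃ b, ((∃ s, b = T.rt s) ∨ ∃ z, b = T.R z) ∧ k = g * b * g⁻¹}

theorem TT_fg : T.TT.FG := (fg_iff _).2 ⟨_, rfl, (((Set.finite_range _).union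
  (Set.finite_range _)).union (Set.finite_range _)).union (Set.finite_range _)⟩

variable {T}

theorem rt_TT (s : S) : (T.rt s, 1) ∈ T.TT :=
  subset_closure (.inl (.inl (.inl ⟨s, Prod.ext rfl (map_one inr)⟩)))
theorem R_TT (z : T.Z) : T.Rt z ∈ T.TT := subset_closure (.inl (.inl (.inr ⟨z, rfl⟩)))
theorem c_TT (q : F) : T.ct q ∈ T.TT := subset_closure (.inl (.inr ⟨q, rfl⟩))
theorem ω_TT (i : I) : T.ωt i ∈ T.TT := subset_closure (.inr ⟨i, rfl⟩)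

theorem Nu.TT {p : T.PL} (h : T.Nu p) : p ∈ T.TT := by
  obtain ⟨q, b, ⟨s, rfl⟩ | ⟨z, rfl⟩ | ⟨i, rfl⟩ | ⟨i, rfl⟩, rfl⟩ := h <;> refine mul_mem (c_TT q) ?_
  exacts [subset_closure (.inl (.inl (.inl ⟨s, rfl⟩))), R_TT z, ω_TT i, inv_mem (ω_TT i)]

theorem TT_ind {P : T.PL → Prop} (h1 : ∀ p, T.Nu p → P p)
    (h2 : ∀ p ∈ T.TT, ∀ p' ∈ T.TT, P p → P p' → P (p * p')) {p : T.PL} (h : p ∈ T.TT) : P p := by
  induction h using closure_induction'' with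
  | one => exact h1 _ nu_one
  | mul x y hx hy a b => exact h2 x hx y hy a b
  | mem x hx =>
    rcases hx with ((⟨s, rfl⟩ | ⟨z, rfl⟩) | ⟨q, rfl⟩) | ⟨i, rfl⟩ <;> apply h1
    exacts [nu_C _, Bs.nu (.inr (.inl ⟨z, rfl⟩)), nu_C (T.t q, q),
      Bs.nu (.inr (.inr (.inl ⟨i, rfl⟩)))]
  | inv_mem x hx =>
    rcases hx with ((⟨s, rfl⟩ | ⟨z, rfl⟩) | ⟨q, rfl⟩) | ⟨i, rfl⟩ <;> apply h1
    exacts [map_inv T.Ct _ ▸ nu_C _, Bs.nu (.inr (.inl ⟨z⁻¹, (map_inv _ _).symm⟩)),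
      map_inv T.ct _ ▸ nu_C (T.t q⁻¹, q⁻¹), Bs.nu (.inr (.inr (.inr ⟨i, rfl⟩)))]

theorem TT_inj {p : T.PL} (h : p ∈ T.TT) (h1 : p.1 = 1) : p.2 = 1 := by
  have up : ∀ {n : ℕ} (k : ℕ) {p : T.PL}, T.Good n p → T.Good (n + k) p := fun k p h => by
    induction k with
    | zero => exact h
    | succ k ih => exact good_succ ih
  obtain ⟨n, hn⟩ := TT_ind (P := fun p => ∃ n, T.Good n p) (fun p h => ⟨0, h⟩)
    (fun p _ p' _ ⟨n, a⟩ ⟨m, b⟩ => ⟨n + m + 1, good_mul (up m a) (add_comm m n ▸ up n b)⟩) h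
  exact good_triv hn h1

theorem mem_Γ {p : T.PL} (h : p ∈ T.TT) : p.1 ∈ T.Γ := ⟨p, h, rfl⟩

theorem sec_Γ {g : Po X S} (h : g ∈ T.Γ) (v : List X) : sec g v ∈ T.Γ := by
  induction v with
  | nil => rwa [sec_nil]
  | cons x v ih =>
    obtain ⟨p, hp, e⟩ := ih
    rw [sec_cons, ← e]
    refine TT_ind (P := fun p => ∀ x, sec p.1 [x] ∈ T.Γ) (fun p h x => ?_)
      (fun p _ p' _ a b x => ?_) hp x
    · obtain ⟨f, h1, h2⟩ := h.mul_nu nu_one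
      rw [← mul_one p, ← h1.1]
      exact mem_Γ (h2 x).TT
    · rw [Prod.fst_mul, sec1]; exact mul_mem (a _) (b _)

theorem K0_conj {g k : Po X S} (hg : g ∈ T.Γ) (hk : k ∈ T.K0) : g * k * g⁻¹ ∈ T.K0 := by
  refine (closure_le (T.K0.comap (MulAut.conj g).toMonoidHom)).2 ?_ hk
  rintro _ ⟨g', hg', b, hb, rfl⟩
  exact subset_closure ⟨g * g', mul_mem hg hg', b, hb, by simp [mul_assoc]⟩

theorem rt_K0 (s : S) : T.rt s ∈ T.K0 := subset_closure ⟨1, one_mem _, _, .inl ⟨s, rfl⟩, by simp⟩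
theorem R_K0 (z : T.Z) : T.R z ∈ T.K0 := subset_closure ⟨1, one_mem _, _, .inr ⟨z, rfl⟩, by simp⟩

theorem K0_TT {k : Po X S} (hk : k ∈ T.K0) : (k, 1) ∈ T.TT := by
  refine (closure_le (T.TT.comap (MonoidHom.inl _ _))).2 ?_ hk
  rintro _ ⟨_, ⟨p, hp, rfl⟩, b, hb, rfl⟩
  have : (b, 1) ∈ T.TT := by rcases hb with ⟨s, rfl⟩ | ⟨z, rfl⟩; exacts [rt_TT s, R_TT z]
  have h := mul_mem (mul_mem hp this) (inv_mem hp)
  rwa [show p * (b, 1) * p⁻¹ = (p.1 * b * p.1⁻¹, 1) from Prod.ext rfl (by simp)] at h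

theorem K0_Γ : T.K0 ≤ T.Γ := fun _ hk => mem_Γ (K0_TT hk)

theorem loc_TT {x : X} {k : Po X S} {l : Lam T.π Zm} (h : (loc [x] k, l) ∈ T.TT) (y : X) :
    (loc [y] k, l) ∈ T.TT := by
  obtain ⟨s, rfl⟩ := T.trans x y
  convert mul_mem (mul_mem (rt_TT s) h) (inv_mem (rt_TT s)) using 1
  exact Prod.ext (T.rt_loc _ _ _).symm (by simp)

theorem Ω_TT (a : I → Zm) : (T.Ω a, inl a) ∈ T.TT ∧ ∀ x, (loc [x] (T.Ω a), inl a) ∈ T.TT := by
  refine ⟨zi_ind (H := T.TT.comap (T.Ω.prod inl)) (fun i => ?_) a, fun x =>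
    zi_ind (H := T.TT.comap (((loc [x]).comp T.Ω).prod inl)) (fun i => ?_) a⟩
  · change (T.Ω (ee i), inl (ee i)) ∈ T.TT
    rw [Ω_ee]; exact ω_TT i
  · change (loc [x] (T.Ω (ee i)), inl (ee i)) ∈ T.TT
    rw [Ω_ee]
    refine loc_TT (x := T.y i) ?_ x
    convert mul_mem (inv_mem (T.rt_TT (T.σ i))) (T.ω_TT i) using 1
    exact Prod.ext (eq_inv_mul_of_mul_eq (T.ω_eq i).symm) (by simp [ωt])

theorem W_TT (l : Lam T.π Zm) : (T.W l, l) ∈ T.TT := by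
  rw [← inl_left_mul_inr_right l, map_mul, W_inl, W_inr]
  exact mul_mem (Ω_TT _).1 (c_TT _)

theorem dec {p : T.PL} (h : p ∈ T.TT) : p.1 * (T.W p.2)⁻¹ ∈ T.K0 := by
  refine TT_ind (P := fun p => p.1 * (T.W p.2)⁻¹ ∈ T.K0) ?_ (fun p hp p' _ a b => ?_) h
  · rintro _ ⟨q, b, hb, rfl⟩
    have : b.1 * (T.W b.2)⁻¹ ∈ T.K0 := by
      rcases hb with ⟨s, rfl⟩ | ⟨z, rfl⟩ | ⟨i, rfl⟩ | ⟨i, rfl⟩
      · simpa [Ct, ← rt_def] using rt_K0 s
      · simpa [Rt] using R_K0 z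
      all_goals simp [ωt, W_inl, Ω_ee]
    convert K0_conj (mem_Γ (c_TT q)) this using 1
    simp [ct, W_inr, mul_assoc]
  · convert mul_mem (K0_conj (mem_Γ hp) b) a using 1
    simp [mul_assoc]

theorem TT_K0 {k : Po X S} (h : (k, 1) ∈ T.TT) : k ∈ T.K0 := by simpa using dec h

theorem D_K0 : T.DD ≤ T.K0 := fun _ hd => (D_le (M := T.K0 ⊓ T.DD)
  (fun s hs => ⟨rt_K0 s, rt_D hs⟩) (fun d hd m hm => ⟨by
    have := K0_conj (K0_Γ (R_K0 fun _ => ⟨d, hd⟩)) hm.1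
    rwa [T.R_conj _ hm.2] at this, T.DD.mul_mem (mul_mem hd hm.2) (inv_mem hd)⟩) hd).1

theorem loc_gen {b : Po X S} (h : (∃ s, b = T.rt s) ∨ ∃ z, b = T.R z) : loc [T.o] b ∈ T.K0 := by
  rcases h with ⟨s, rfl⟩ | ⟨z, rfl⟩
  · exact TT_K0 (loc_TT (K0_TT (D_K0 (loc_D s))) _)
  · have := T.R_eq fun α => z (α * T.ϑ⁻¹)
    rw [show T.sh (fun α => z (α * T.ϑ⁻¹)) = z from funext fun α => by simp [sh]] at this
    rw [eq_inv_mul_of_mul_eq this.symm]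
    exact mul_mem (inv_mem (D_K0 (Subtype.prop _))) (R_K0 _)

theorem rep {g : Po X S} (h : g ∈ T.Γ) : ∃ g' ∈ T.Γ, g' [] • T.o = T.o ∧ sec g' [T.o] = g := by
  let P : Po X S → Prop := fun g => ∃ g' ∈ T.Γ, g' [] • T.o = T.o ∧ sec g' [T.o] = g
  have h1 : ∀ a b, P a → P b → P (a * b) := by
    rintro _ _ ⟨a, a1, a2, rfl⟩ ⟨b, b1, b2, rfl⟩
    exact ⟨a * b, mul_mem a1 b1, by rw [mul_app, smul_nil, mul_smul, b2, a2], by rw [sec1, b2]⟩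
  have h2 : ∀ a, loc [T.o] a ∈ T.Γ → P a := fun a h =>
    ⟨_, h, by rw [loc_nil1, one_smul], sec_loc _ _⟩
  obtain ⟨p, hp, rfl⟩ := h
  refine TT_ind (P := fun p => P p.1) ?_ (fun p _ p' _ => h1 _ _) hp
  rintro _ ⟨q, b, hb, rfl⟩
  refine h1 _ _ ⟨_, mem_Γ (nu_C (1, T.ϑ⁻¹ q)).TT, one_smul _ _, (T.sec_C _ _).trans (by simp [ct])⟩
    (h2 _ ?_)
  rcases hb with ⟨s, rfl⟩ | ⟨z, rfl⟩ | ⟨i, rfl⟩ | ⟨i, rfl⟩
  · exact K0_Γ (loc_gen (.inl ⟨s, rfl⟩))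
  · exact K0_Γ (loc_gen (.inr ⟨z, rfl⟩))
  · simpa [Ω_ee, ωt] using mem_Γ ((T.Ω_TT (ee i)).2 T.o)
  · simpa [Ω_ee, ωt] using mem_Γ ((T.Ω_TT (ee i)).2 T.o)

theorem loc_K0 {k : Po X S} (hk : k ∈ T.K0) (x : X) : loc [x] k ∈ T.K0 := by
  refine TT_K0 (loc_TT (x := T.o) (K0_TT ((closure_le (T.K0.comap (loc [T.o]))).2 ?_ hk)) x)
  rintro _ ⟨g, hg, b, hb, rfl⟩
  obtain ⟨g', h1, h2, rfl⟩ := rep hg
  have := K0_conj h1 (loc_gen hb)
  rwa [conj_loc, smul_cons, h2] at this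

theorem K0_perf : T.K0 ≤ ⁅T.K0, T.K0⁆ := by
  classical
  refine (closure_le _).2 ?_
  rintro _ ⟨g, hg, b, hb, rfl⟩
  have h1 : ∀ {H : Type} [Group H] (f : H →* Po X S), (∀ a, f a ∈ T.K0) →
      ∀ a ∈ ⁅(⊤ : Subgroup H), (⊤ : Subgroup H)⁆, g * f a * g⁻¹ ∈ ⁅T.K0, T.K0⁆ := by
    intro H _ f hf
    refine (commutator_le (H₃ := ⁅T.K0, T.K0⁆.comap
      ((MulAut.conj g).toMonoidHom.comp f))).2 fun u _ w _ => ?_
    rw [mem_comap, map_commutatorElement]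
    exact commutator_mem_commutator (K0_conj hg (hf u)) (K0_conj hg (hf w))
  rcases hb with ⟨s, rfl⟩ | ⟨z, rfl⟩
  · exact h1 _ rt_K0 s (T.perf trivial)
  · refine h1 _ R_K0 z ?_
    rw [← pi_top Set.univ, commutator_pi_pi_of_finite]
    refine fun α _ => (mem_map_iff_mem T.DD.subtype_injective).1 ?_
    rw [map_commutator, ← MonoidHom.range_eq_map, range_subtype]
    exact D_perf (z α).2

theorem K0_trans (v : List X) : ∀ w : List X, v.length = w.length → ∃ k ∈ T.K0, k • v = w := by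
  have h1 : ∀ u, ∀ k ∈ T.K0, loc u k ∈ T.K0 := fun u => by
    induction u with
    | nil => exact fun k hk => by rwa [loc_nil]
    | cons x u ih => exact fun k hk => loc_cons x u k ▸ ih _ (loc_K0 hk x)
  induction v with
  | nil => exact fun w h => ⟨1, one_mem _, (List.length_eq_zero_iff.1 h.symm).symm⟩
  | cons x v ih =>
    rintro (_ | ⟨y, w⟩) h
    · simp at h
    obtain ⟨k, hk, rfl⟩ := ih w (by simpa using h)
    obtain ⟨s, rfl⟩ := T.trans (k v • x) y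
    refine ⟨_, mul_mem (h1 (k • v) _ (rt_K0 s)) hk, ?_⟩
    rw [mul_smul, smul_cons, smul_cons, St_fix (loc_St _ _) le_rfl]
    exact congrArg (· • _ :: _) (congrFun (sec_loc (k • v) (T.rt s)) [])

theorem exists_lb {G : Type} [Group G] (e : G ≃* T.TT) : ∃ M : Md G X S,
    (∀ g, M.j g = (e g).1.1) ∧ Nonempty (Lb M T.D T.π) := by
  classical
  let j : G →* Po X S := (MonoidHom.fst _ _).comp (T.TT.subtype.comp e.toMonoidHom)
  let L : G →* Lam T.π Zm := (MonoidHom.snd _ _).comp (T.TT.subtype.comp e.toMonoidHom)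
  have h1 : ∀ p ∈ T.TT, ∃ g, j g = p.1 ∧ L g = p.2 := fun p hp =>
    ⟨e.symm ⟨p, hp⟩, by simp [j], by simp [L]⟩
  have h2 : ∀ {g l}, (j g, l) ∈ T.TT → L g = l := fun {g l} h =>
    mul_inv_eq_one.1 (TT_inj (mul_mem (e g).2 (inv_mem h)) (mul_inv_cancel _))
  have h3 : Function.Injective j := (injective_iff_map_eq_one _).2 fun g hg =>
    e.map_eq_one_iff.1 (Subtype.ext (Prod.ext hg (TT_inj (e g).2 hg)))
  have h4 : ∀ {g}, g ∈ L.ker ↔ j g ∈ T.K0 := fun {g} =>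
    ⟨fun h => TT_K0 (by rw [← MonoidHom.mem_ker.1 h]; exact (e g).2), fun h => h2 (K0_TT h)⟩
  have h5 : ∀ k ∈ T.K0, ∃ g ∈ L.ker, j g = k := fun k hk =>
    (h1 _ (K0_TT hk)).imp fun _ h => ⟨h.2, h.1⟩
  choose sc hsc using fun g v => show ∃ h, j h = sec (j g) v from by
    obtain ⟨p, hp, e⟩ := sec_Γ (mem_Γ (e g).2) v
    exact (h1 p hp).imp fun _ h => h.1.trans e
  let M : Md G X S := ⟨j, h3, sc, hsc, fun v w h => by
    obtain ⟨k, hk, rfl⟩ := K0_trans (T := T) v w h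
    obtain ⟨g, -, rfl⟩ := h5 k hk
    exact ⟨g, rfl⟩⟩
  refine ⟨M, fun _ => rfl, ⟨⟨L, T.b, T.c, T.o, T.bc, fun h => T.oO (h ▸ T.bO),
    fun h => T.oO (h ▸ T.cO), T.πρ, T.πθ, Md.Br.of_letter fun x k hk =>
      h5 _ (loc_K0 (h4.1 hk) x), fun k hk => (mem_map_iff_mem h3).1 ?_, fun q => ?_, fun a x => ?_,
    fun α hα => ?_⟩⟩⟩
  · rw [map_commutator]
    exact commutator_mono h5 h5 (K0_perf (h4.1 hk))
  · obtain ⟨g, a, b⟩ := h1 _ (nu_C (1, T.D.θ q)).TT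
    refine ⟨g, fun v hv => ?_, b, fun x => h2 ?_⟩
    · rw [List.length_eq_zero_iff.1 (Nat.lt_one_iff.1 hv)]; exact congrFun a []
    · rw [hsc, a]
      convert c_TT (T := T) q using 1
      exact Prod.ext ((T.sec_C _ x).trans (congrArg T.cq (T.D.θ.symm_apply_apply q))) rfl
  · obtain ⟨g, a1, a2⟩ := h1 _ ((T.Ω_TT a).2 x)
    obtain ⟨h, b1, b2⟩ := h1 _ (T.Ω_TT a).1
    exact ⟨g, h, a1.trans (congrArg (loc [x]) b1.symm), a2, b2⟩
  · obtain ⟨g, a, b⟩ := h5 _ (D_K0 (hh_D hα))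
    have h6 : ∀ x, j (sc g [x]) = (if x = T.c then T.cq α else 1) *
        if x = T.b then T.cq α⁻¹ else 1 := fun x => by
      rw [hsc, b, hh, sec1, loc_nil1, one_smul, sec_loc1, sec_loc1]
    refine ⟨g, ?_, a, h2 ?_, h2 ?_, fun x c1 c2 => h2 ?_⟩
    · exact mem_comap.2 (b ▸ mul_mem (loc_St [T.c] _) (loc_St [T.b] _))
    · rw [h6, if_pos rfl, if_neg T.bc.symm, mul_one]; exact c_TT α
    · rw [h6, if_pos rfl, if_neg T.bc, one_mul]; exact c_TT α⁻¹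
    · rw [h6, if_neg c1, if_neg c2, one_mul]; exact one_mem _

end Dt

end Pool.Agent.P.MP_042d8e_al.CK
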