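import Pool.Agent.P.MP_042d8e_al.CK.Defs

/-! Working with the profinite completion. -/

set_option autoImplicit false

open scoped commutatorElement

namespace Pool.Agent.P.MP_042d8e_al.CK

open ProfiniteGrp.ProfiniteCompletion Topology

/-- the profinite completion as a type -/
abbrev Hat (G : Type) [Group G] : Type := completion (GrpCat.of G)

/-- normal subgroups of finite index -/
abbrev FN (G : Type) [Group G] : Type := FiniteIndexNormalSubgroup G

variable {G G' : Type} [Group G] [Group G']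

/-- the canonical map -/
def et : G →* Hat G := (eta (GrpCat.of G)).hom

/-- the projections -/
def pj (N : FN G) : Hat G →* G ⧸ N.toSubgroup where
  toFun x := x.1 N
  map_one' := rfl
  map_mul' _ _ := rfl

@[simp] theorem pj_et (N : FN G) (g : G) : pj N (et g) = (g : G ⧸ N.toSubgroup) := rfl

theorem pj_ext {x y : Hat G} (h : ∀ N, pj N x = pj N y) : x = y := Subtype.ext (funext h)

theorem pj_lc (N : FN G) : IsLocallyConstant (pj N) := by
  have : DiscreteTopology ((diagram (GrpCat.of G)).obj N) := ⟨rfl⟩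
  exact (IsLocallyConstant.iff_continuous (X := Hat G) (Y := (diagram (GrpCat.of G)).obj N)
    fun x => x.1 N).2 ((continuous_apply N).comp continuous_subtype_val)

theorem cont_of {T : Type} [TopologicalSpace T] {f : T → Hat G}
    (h : ∀ N, IsLocallyConstant fun t => pj N (f t)) : Continuous f :=
  continuous_induced_rng.2 (continuous_pi fun N =>
    IsLocallyConstant.continuous (Y := (diagram (GrpCat.of G)).obj N) (h N))

theorem et_dense : DenseRange (et : G → Hat G) := denseRange (GrpCat.of G)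

theorem pj_mono {N M : FN G} (h : N ≤ M) {x : Hat G} {g : G} (hx : pj N x = g) : pj M x = g := by
  have h1 := x.2 (CategoryTheory.homOfLE h)
  change QuotientGroup.map _ _ (MonoidHom.id G) h (pj N x) = pj M x at h1
  rw [← h1, hx]; rfl

theorem lc_pi {T ι : Type} {Y : ι → Type} [TopologicalSpace T] [Finite ι] {f : ∀ i, T → Y i}
    (h : ∀ i, IsLocallyConstant (f i)) : IsLocallyConstant fun t i => f i t := by
  rw [IsLocallyConstant.iff_eventually_eq]
  intro t
  filter_upwards [Filter.eventually_all.2 fun i => (h i).eventually_eq t] with s hs using funext hs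

/-- the closure of a subgroup -/
def cl (H : Subgroup G) : Subgroup (Hat G) := (H.map et).topologicalClosure

theorem et_cl {H : Subgroup G} {g : G} (h : g ∈ H) : et g ∈ cl H :=
  Subgroup.le_topologicalClosure _ ⟨g, h, rfl⟩

theorem cl_closed (H : Subgroup G) : IsClosed (cl H : Set (Hat G)) :=
  Subgroup.isClosed_topologicalClosure _

theorem cl_mono {H K : Subgroup G} (h : H ≤ K) : cl H ≤ cl K :=
  closure_mono (Set.image_mono h)

theorem cl_ind {H : Subgroup G} {p : Hat G → Prop} (hp : IsClosed {x | p x})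
    (h : ∀ g ∈ H, p (et g)) {x : Hat G} (hx : x ∈ cl H) : p x :=
  closure_minimal (s := (H.map et : Set (Hat G))) (by rintro _ ⟨g, hg, rfl⟩; exact h g hg) hp hx

theorem cl_top (x : Hat G) : x ∈ cl ⊤ := by
  have := et_dense x
  rwa [← MonoidHom.coe_range, MonoidHom.range_eq_map] at this

theorem cl_ind₂ {H K : Subgroup G} {p : Hat G → Hat G → Prop}
    (hp : IsClosed {z : Hat G × Hat G | p z.1 z.2}) (h : ∀ g ∈ H, ∀ k ∈ K, p (et g) (et k))
    {x y : Hat G} (hx : x ∈ cl H) (hy : y ∈ cl K) : p x y :=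
  cl_ind (p := fun x => p x y) (hp.preimage (Continuous.prodMk_left y)) (fun g hg =>
    cl_ind (p := fun y => p (et g) y) (hp.preimage (Continuous.prodMk_right _)) (h g hg) hy) hx

theorem approx {H : Subgroup G} {x : Hat G} (hx : x ∈ cl H) {Y : Type} {φ : Hat G → Y}
    (hφ : IsLocallyConstant φ) : ∃ g ∈ H, φ (et g) = φ x := by
  obtain ⟨_, h1, g, hg, rfl⟩ := mem_closure_iff.1 hx _ (hφ.isOpen_fiber (φ x)) rfl
  exact ⟨g, hg, h1⟩

theorem mem_cl {H : Subgroup G} {x : Hat G} : x ∈ cl H ↔ ∀ N, ∃ g ∈ H, pj N x = g := by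
  refine ⟨fun hx N => (approx hx (pj_lc N)).imp fun g hg => ⟨hg.1, hg.2.symm⟩, fun h => ?_⟩
  refine mem_closure_iff.2 ?_
  rintro U ⟨s, hs, rfl⟩ hx
  obtain ⟨J, u, h1, h2⟩ := isOpen_pi_iff.1 hs _ hx
  have : (⨅ j : J, j.1.toSubgroup).Normal := Subgroup.normal_iInf_normal fun j => inferInstance
  have : (⨅ j : J, j.1.toSubgroup).FiniteIndex := Subgroup.finiteIndex_iInf fun j => inferInstance
  obtain ⟨g, hg, e⟩ := h (.ofSubgroup (⨅ j : J, j.1.toSubgroup))
  refine ⟨et g, h2 fun a ha => ?_, g, hg, rfl⟩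
  have h3 : pj a x = g := pj_mono (iInf_le (fun j : J => j.1.toSubgroup) ⟨a, ha⟩) e
  exact Set.mem_of_eq_of_mem h3.symm (h1 a ha).2

theorem pj_eq_one {N : FN G} {x : Hat G} : pj N x = 1 ↔ x ∈ cl N.toSubgroup := by
  constructor
  · intro h
    refine mem_cl.2 fun M => ?_
    obtain ⟨g, e⟩ := QuotientGroup.mk_surjective (pj (M ⊓ N) x)
    exact ⟨g, (QuotientGroup.eq_one_iff g).1 ((pj_mono inf_le_right e.symm).symm.trans h),
      pj_mono inf_le_left e.symm⟩
  · intro h
    obtain ⟨g, hg, e⟩ := mem_cl.1 h N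
    rw [e, QuotientGroup.eq_one_iff]; exact hg

theorem eq_one_of_cl {x : Hat G} (h : ∀ N : FN G, x ∈ cl N.toSubgroup) : x = 1 :=
  pj_ext fun N => (pj_eq_one.2 (h N)).trans (map_one _).symm

theorem mem_cl_sup {H : Subgroup G} {x : Hat G} (h : ∀ N : FN G, x ∈ cl (H ⊔ N.toSubgroup)) :
    x ∈ cl H := mem_cl.2 fun N => by
  obtain ⟨g, hg, e⟩ := mem_cl.1 (h N) N
  obtain ⟨a, ha, b, hb, rfl⟩ := Subgroup.mem_sup_of_normal_right.1 hg
  refine ⟨a, ha, ?_⟩
  rw [e, QuotientGroup.mk_mul, (QuotientGroup.eq_one_iff b).2 hb, mul_one]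

instance cl_normal (H : Subgroup G) [hH : H.Normal] : (cl H).Normal := ⟨fun x hx y =>
  cl_ind₂ (p := fun x y => y * x * y⁻¹ ∈ cl H) ((cl_closed H).preimage (by fun_prop))
    (fun g hg k _ => by
      rw [← map_inv, ← map_mul, ← map_mul]; exact et_cl (hH.conj_mem g hg k)) hx (cl_top y)⟩

theorem comm_cl {H K : Subgroup G} {x y : Hat G} (hx : x ∈ cl H) (hy : y ∈ cl K) :
    ⁅x, y⁆ ∈ cl ⁅H, K⁆ :=
  cl_ind₂ (p := fun x y => ⁅x, y⁆ ∈ cl ⁅H, K⁆)
    ((cl_closed _).preimage (by simp only [commutatorElement_def]; fun_prop))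
    (fun g hg k hk => by
      rw [← map_commutatorElement]; exact et_cl (Subgroup.commutator_mem_commutator hg hk)) hx hy

/-- extension of a function with values in a set -/
theorem ext_fin {Y : Type} (s : G → Y) (N : FN G) (h : ∀ g, ∀ n ∈ N, s (g * n) = s g) :
    ∃ t : Hat G → Y, IsLocallyConstant t ∧ ∀ g, t (et g) = s g := by
  refine ⟨fun x => s (pj N x).out, (pj_lc N).comp fun c => s c.out, fun g => ?_⟩
  obtain ⟨n, e⟩ := QuotientGroup.mk_out_eq_mul N.toSubgroup g
  beta_reduce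
  rw [pj_et, e, h g n n.2]

theorem lc_ext {Y : Type} {t t' : Hat G → Y} (h : IsLocallyConstant t) (h' : IsLocallyConstant t')
    (e : ∀ g, t (et g) = t' (et g)) (x : Hat G) : t x = t' x := by
  obtain ⟨g, -, hg⟩ := approx (cl_top x) (h.prodMk h')
  rw [← (Prod.mk.inj hg).1, ← (Prod.mk.inj hg).2, e]

/-- extension of a uniformly continuous function -/
theorem ext_pro (s : G → G')
    (h : ∀ M : FN G', ∃ N : FN G, ∀ g, ∀ n ∈ N, (s g)⁻¹ * s (g * n) ∈ M) :
    ∃ t : Hat G → Hat G', Continuous t ∧ ∀ g, t (et g) = et (s g) := by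
  have h1 : ∀ M : FN G', ∃ t : Hat G → G' ⧸ M.toSubgroup, IsLocallyConstant t ∧
      ∀ g, t (et g) = s g := fun M => by
    obtain ⟨N, hN⟩ := h M
    exact ext_fin _ N fun g n hn => (QuotientGroup.eq.2 (hN g n hn)).symm
  choose t h1 h2 using h1
  refine ⟨fun x => ⟨fun M => t M x, fun {M M'} f => ?_⟩, cont_of h1, fun g => pj_ext fun M => h2 M g⟩
  exact lc_ext ((h1 M).comp (QuotientGroup.map _ _ (MonoidHom.id G') f.le)) (h1 M')
    (fun g => by rw [Function.comp_apply, h2, h2]; rfl) x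

/-- the normal core of a subgroup of finite index -/
theorem exists_core (H : Subgroup G) [H.FiniteIndex] : ∃ N : FN G, ∀ n ∈ N, n ∈ H :=
  ⟨.ofSubgroup H.normalCore, fun _ hn => H.normalCore_le hn⟩

theorem fi_map {H : Subgroup G} [H.FiniteIndex] (f : H →* G') (M : Subgroup G') [M.FiniteIndex] :
    ∃ N : FN G, ∀ n ∈ N, ∃ hn : n ∈ H, f ⟨n, hn⟩ ∈ M := by
  have h1 : (M.comap f).FiniteIndex := ⟨by
    rw [Subgroup.index_comap]; exact Subgroup.FiniteIndex.index_ne_zero⟩
  have h2 : ((M.comap f).map H.subtype).FiniteIndex := ⟨by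
    rw [Subgroup.index_map_subtype]; exact mul_ne_zero h1.1 Subgroup.FiniteIndex.index_ne_zero⟩
  obtain ⟨N, hN⟩ := exists_core ((M.comap f).map H.subtype)
  refine ⟨N, fun n hn => ?_⟩
  obtain ⟨a, ha, rfl⟩ := hN n hn
  exact ⟨a.2, ha⟩

/-- extension of a homomorphism from a subgroup of finite index -/
theorem ext_hom {H : Subgroup G} [H.FiniteIndex] (f : H →* G') :
    ∃ t : Hat G → Hat G', Continuous t ∧ (∀ h : H, t (et h.1) = et (f h)) ∧
      ∀ x ∈ cl H, ∀ y ∈ cl H, t (x * y) = t x * t y := by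
  classical
  obtain ⟨t, h1, h2⟩ := ext_pro (fun g => if h : g ∈ H then f ⟨g, h⟩ else 1) fun M => by
    obtain ⟨N, hN⟩ := fi_map f M.toSubgroup
    refine ⟨N, fun g n hn => ?_⟩
    obtain ⟨a, b⟩ := hN n hn
    by_cases hg : g ∈ H
    · rw [dif_pos hg, dif_pos (mul_mem hg a)]
      change (f ⟨g, hg⟩)⁻¹ * f (⟨g, hg⟩ * ⟨n, a⟩) ∈ M
      rwa [map_mul, inv_mul_cancel_left]
    · rw [dif_neg hg, dif_neg (by rwa [Subgroup.mul_mem_cancel_right _ a])]
      simp
  have h3 : ∀ h : H, t (et h.1) = et (f h) := fun h => by rw [h2, dif_pos h.2]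
  refine ⟨t, h1, h3, fun x hx y hy => cl_ind₂ (p := fun x y => t (x * y) = t x * t y)
    (isClosed_eq (by fun_prop) (by fun_prop)) (fun g hg k hk => ?_) hx hy⟩
  rw [← map_mul, h3 ⟨g, hg⟩, h3 ⟨k, hk⟩, ← map_mul, ← map_mul]
  exact h3 (⟨g, hg⟩ * ⟨k, hk⟩)

/-- extension of a homomorphism to a finite group -/
theorem ext_hom_fin {F : Type} [Group F] [Finite F] (f : G →* F) :
    ∃ t : Hat G →* F, IsLocallyConstant t ∧ ∀ g, t (et g) = f g := by
  let N : FN G := .ofSubgroup f.ker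
  let l : G ⧸ N.toSubgroup →* F := QuotientGroup.lift _ f fun _ h => h
  refine ⟨l.comp (pj N), (pj_lc N).comp l, fun g => ?_⟩
  rw [MonoidHom.comp_apply, pj_et]
  exact QuotientGroup.lift_mk _ _ _

theorem pow_index_mem (N : FN G) (g : G) : g ^ N.toSubgroup.index ∈ N :=
  N.toSubgroup.pow_index_mem g

/-! ### The completion of the integers -/

/-- multiples of `e` -/
def mul_FN (e : ℕ) [NeZero e] : FN (Multiplicative ℤ) :=
  .ofSubgroup (AddMonoidHom.toMultiplicative (Int.castAddHom (ZMod e))).ker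

theorem mem_mul_FN {e : ℕ} [NeZero e] {t : Multiplicative ℤ} :
    t ∈ mul_FN e ↔ (e : ℤ) ∣ t.toAdd := by
  rw [← ZMod.intCast_zmod_eq_zero_iff_dvd]; rfl

theorem zhat_one {z : ZHat} (h : ∀ m : ℕ, pj (mul_FN (m + 1)) z = 1) : z = 1 :=
  eq_one_of_cl fun N => by
    obtain ⟨m, hm⟩ := Nat.exists_eq_succ_of_ne_zero
      (Subgroup.FiniteIndex.index_ne_zero (H := N.toSubgroup))
    refine cl_mono (fun t ht => ?_) (pj_eq_one.1 (h m))
    obtain ⟨c, hc⟩ := mem_mul_FN.1 ht
    have : t = Multiplicative.ofAdd c ^ N.toSubgroup.index := by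
      rw [hm, ← ofAdd_nsmul, nsmul_eq_mul, ← hc, ofAdd_toAdd]
    exact this ▸ pow_index_mem N _

theorem zhat_tf {z : ZHat} {k : ℕ} (hk : k ≠ 0) (h : z ^ k = 1) : z = 1 :=
  zhat_one fun m => by
    have : NeZero (k * (m + 1)) := ⟨mul_ne_zero hk m.succ_ne_zero⟩
    obtain ⟨t, -, e⟩ := approx (cl_top z) ((pj_lc (mul_FN (m + 1))).prodMk
      (pj_lc (mul_FN (k * (m + 1)))))
    obtain ⟨e1, e2⟩ := Prod.mk.inj e
    have h1 : pj (mul_FN (k * (m + 1))) (et (t ^ k)) = 1 := by
      rw [map_pow, map_pow, e2, ← map_pow, h, map_one]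
    rw [pj_et, QuotientGroup.eq_one_iff] at h1
    have h2 := mem_mul_FN.1 h1
    rw [toAdd_pow, nsmul_eq_mul, Nat.cast_mul, mul_dvd_mul_iff_left (by exact_mod_cast hk)] at h2
    rw [← e1, pj_et, QuotientGroup.eq_one_iff]
    exact mem_mul_FN.2 h2

theorem zhat_comm (x y : ZHat) : x * y = y * x :=
  cl_ind₂ (p := fun x y => x * y = y * x) (isClosed_eq (by fun_prop) (by fun_prop))
    (fun g _ k _ => by rw [← map_mul, ← map_mul, mul_comm]) (cl_top x) (cl_top y)

end Pool.Agent.P.MP_042d8e_al.CK
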