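import Pool.Agent.P.MP_042d8e_al.CK.Gen

/-! An alphabet for the construction. -/

set_option autoImplicit false

open scoped commutatorElement

namespace Pool.Agent.P.MP_042d8e_al.CK

open Subgroup Equiv Equiv.Perm Sum

section
variable (Y Z : Type) [Fintype Y] [DecidableEq Y] [Fintype Z] [DecidableEq Z]

/-- the alphabet -/
abbrev Al : Type := (Y ⊕ Y) ⊕ (Fin 5 ⊕ Option Z)

/-- doubling -/
def db : Perm Y →* alternatingGroup (Al Y Z) :=
  ((sumCongrHom _ _).comp (((sumCongrHom Y Y).comp
    ((MonoidHom.id _).prod (MonoidHom.id _))).prod 1)).codRestrict _ fun p => by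
      simp [sign_sumCongr]

/-- the alternating group on five letters -/
def a5 : alternatingGroup (Fin 5) →* alternatingGroup (Al Y Z) :=
  ((sumCongrHom _ _).comp ((1 : _ →* _).prod ((sumCongrHom _ _).comp
    ((alternatingGroup (Fin 5)).subtype.prod 1)))).codRestrict _ fun p => by
      simpa [sign_sumCongr] using mem_alternatingGroup.1 p.2

variable {Y Z}

@[simp] theorem db_1 (p : Perm Y) (y : Y) : db Y Z p • (inl (inl y) : Al Y Z) = inl (inl (p y)) :=
  rfl
@[simp] theorem db_2 (p : Perm Y) (z : Fin 5 ⊕ Option Z) : db Y Z p • (inr z : Al Y Z) = inr z :=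
  rfl
@[simp] theorem a5_1 (p : alternatingGroup (Fin 5)) (k : Fin 5) :
    a5 Y Z p • (inr (inl k) : Al Y Z) = inr (inl (p.1 k)) := rfl

end

theorem exists_dt {F I : Type} [Group F] [Finite F] [Finite I] (D : Ret F)
    (π : F →* Perm I) (h1 : ∀ q, π (D.ρ q) = π q) (h2 : ∀ q, π (D.θ q) = π q) :
    ∃ (X S : Type) (_ : Group S) (_ : MulAction S X) (_ : Fintype X) (_ : Finite S)
      (_ : FaithfulSMul S X) (_ : Nontrivial X) (T : Dt X S F I), T.D = D ∧ T.π = π := by
  classical
  have := Fintype.ofFinite F
  have := Fintype.ofFinite I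
  obtain ⟨m, hm⟩ := Nat.exists_eq_succ_of_ne_zero (Nat.card_pos (α := F)).ne'
  let Y := F ⊕ I ⊕ I
  let Z := Fin ((2 * Nat.card Y + 5) * m)
  have hc : Nat.card (Al Y Z) = Nat.card F * (2 * Nat.card Y + 5) + 1 := by
    simp only [Al, Z, hm, Nat.card_sum, Nat.card_eq_fintype_card (α := Option _),
      Fintype.card_option, Nat.card_fin, Fintype.card_fin, Nat.succ_eq_add_one]
    ring
  have h5 : 5 ≤ Nat.card (Al Y Z) := by rw [hc, hm]; nlinarith
  let τ : F →* Perm Y := (sumCongrHom _ _).comp
    ((MulAction.toPermHom F F).prod ((sumCongrHom I I).comp (π.prod π)))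
  let σ : I → Perm Y := fun i => swap (inr (inl i)) (inr (inr i))
  have σ1 : ∀ i, σ i (inr (inl i)) = inr (inr i) := fun i => swap_apply_left _ _
  have σ2 : ∀ i j, i ≠ j → σ i (inr (inl j)) = inr (inl j) ∧ σ i (inr (inr j)) = inr (inr j) :=
    fun i j h => ⟨swap_apply_of_ne_of_ne (by simp [Y, h.symm]) (by simp [Y]),
      swap_apply_of_ne_of_ne (by simp [Y]) (by simp [Y, h.symm])⟩
  have := alternatingGroup.isPretransitive_of_three_le_card (Al Y Z) (by omega)
  exact ⟨Al Y Z, alternatingGroup _, inferInstance, inferInstance, inferInstance, inferInstance,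
    inferInstance, ⟨inr (inl 0), inr (inl 1), by simp⟩,
    { D := D
      π := π
      πρ := h1
      πθ := h2
      t := (db Y Z).comp τ
      tinj := fun q h => by
        have : (db Y Z).comp τ q • (inl (inl (inl 1)) : Al Y Z) = inl (inl (inl (q * 1))) := rfl
        rw [h, one_smul] at this
        simpa using this.symm
      o := inr (inr none)
      a := inr (inl 0)
      b := inr (inl 1)
      c := inr (inl 2)
      O := Set.range fun k => inr (inl k)
      oO := by simp
      aO := by simp
      bO := by simp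
      cO := by simp
      ab := by simp
      ac := by simp
      bc := by simp
      t_o := fun _ => rfl
      t_O := by rintro q _ ⟨k, rfl⟩; rfl
      S1 := (a5 Y Z).range
      S1_fix := by
        rintro _ ⟨s, rfl⟩ (x | x | x) h
        exacts [rfl, absurd ⟨x, rfl⟩ h, rfl]
      S1_perf := by
        rw [MonoidHom.range_eq_map, ← map_commutator, ← _root_.commutator_def,
          commutator_alternatingGroup_eq_top (by simp)]
      s1 := ⟨_, ⟨⟨swap 1 2 * swap 3 4, by simp⟩, rfl⟩, by simp; decide, by simp; decide⟩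
      s2 := ⟨_, ⟨⟨swap 0 2 * swap 3 4, by simp⟩, rfl⟩, by simp; decide, by simp; decide⟩
      perf := (commutator_alternatingGroup_eq_top h5).ge
      trans := MulAction.exists_smul_eq _
      y := fun i => inl (inl (inr (inl i)))
      σ := fun i => db Y Z (σ i)
      y_inj := fun i j h => by simpa [Y] using h
      yO := by simp
      σO := by simp
      σ_y := by simp only [db_1, σ1]; simp [Y]
      σ_inj := by simp only [db_1, σ1]; simp [Y]
      σ_fix := fun i j h => by simp [σ2 i j h]
      σ_comm := fun i j => Commute.map (by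
        rcases eq_or_ne i j with rfl | h
        · exact Commute.refl _
        · refine mul_inv_eq_iff_eq_mul.1 ((swap_apply_apply _ _ _).symm.trans ?_)
          rw [(σ2 i j h).1, (σ2 i j h).2]) _
      t_y := fun _ _ => rfl
      t_σ := fun q i => by
        rw [MonoidHom.comp_apply, ← map_inv, ← map_mul, ← map_mul]
        exact congrArg _ (swap_apply_apply _ _ _).symm
      card := fun α _ => by rw [hc, pow_succ, pow_mul, pow_card_eq_one', one_pow, one_mul] },
    rfl, rfl⟩

end Pool.Agent.P.MP_042d8e_al.CK
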