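import Pool.Agent.P.MP_042d8e_al.Defs

/-! Self-similar regular branch groups and their congruence kernels. -/

set_option autoImplicit false

namespace Pool.Agent.P.MP_042d8e_al.CK

open ProfiniteGrp.ProfiniteCompletion

/-- `G` is a self-similar regular branch group on the tree of words over `X`; the children of the
word `v` are the words `x :: v`, so the subtree below `u` consists of the words `w ++ u`. -/
structure RegBranch {X : Type} (G : Subgroup (Equiv.Perm (List X))) : Prop where
  /-- the root is fixed -/
  root : ∀ g ∈ G, g [] = []
  /-- children are mapped to children -/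
  child : ∀ g ∈ G, ∀ (x : X) (v : List X), ∃ y : X, g (x :: v) = y :: g v
  /-- the action is transitive on every level -/
  trans : ∀ v w : List X, v.length = w.length → ∃ g ∈ G, g v = w
  /-- all sections belong to the group -/
  selfSim : ∀ g ∈ G, ∀ u : List X, ∃ h ∈ G, ∀ w : List X, g (w ++ u) = h w ++ g u
  /-- a normal subgroup of finite index contains a copy of itself below each letter -/
  branch : ∃ K : Subgroup G, K.Normal ∧ K.FiniteIndex ∧ ∀ k ∈ K, ∀ x : X, ∃ h ∈ K,
    (∀ w : List X, h.1 (w ++ [x]) = k.1 w ++ [x]) ∧
      ∀ y : X, y ≠ x → ∀ w : List X, h.1 (w ++ [y]) = w ++ [y]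

/-- the stabiliser of level `n` -/
def levelStab {X : Type} (G : Subgroup (Equiv.Perm (List X))) (n : ℕ) : Subgroup G :=
  ⨅ v : {v : List X // v.length = n}, MulAction.stabilizer G v.1

/-- the kernel of a sequence of subgroups: the intersection of their closures in the profinite
completion; for the sequence of level stabilisers this is the congruence kernel -/
def seqKer {G : Type} [Group G] (M : ℕ → Subgroup G) : Subgroup (completion (GrpCat.of G)) :=
  ⨅ n : ℕ, ((M n).map (eta (GrpCat.of G)).hom).topologicalClosure

/-- the profinite group `P` embeds into the kernel of the sequence `M` -/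
def Embeds (P : ProfiniteGrp.{0}) {G : Type} [Group G] (M : ℕ → Subgroup G) : Prop :=
  ∃ f : P →* completion (GrpCat.of G), Continuous f ∧ Function.Injective f ∧ ∀ p, f p ∈ seqKer M

/-- the profinite completion of the integers -/
abbrev ZHat : ProfiniteGrp.{0} := completion (GrpCat.of (Multiplicative ℤ))

end Pool.Agent.P.MP_042d8e_al.CK
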