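import Pool.Agent.P.MP_042d8e_al.CK.Real

/-! The generators of the group. -/

set_option autoImplicit false
set_option linter.unusedSectionVars false

open scoped commutatorElement

namespace Pool.Agent.P.MP_042d8e_al.CK

open Po Subgroup SemidirectProduct

variable {X S F I : Type} [Group S] [MulAction S X] [Group F]

theorem ext1 {a b : Po X S} (h1 : a [] = b []) (h2 : ∀ x, sec a [x] = sec b [x]) : a = b :=
  ext_lev 1 (fun v hv => by rwa [List.length_eq_zero_iff.1 (Nat.lt_one_iff.1 hv)]) fun u hu => by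
    obtain ⟨x, rfl⟩ := List.length_eq_one_iff.1 hu
    exact h2 x

theorem sec1 (g h : Po X S) (x : X) : sec (g * h) [x] = sec g [h [] • x] * sec h [x] :=
  sec_mul g h [x]

theorem loc_nil1 (x : X) (k : Po X S) : loc [x] k [] = 1 := loc_St [x] k [] (by simp)

open Classical in
theorem sec_loc1 (x y : X) (k : Po X S) : sec (loc [x] k) [y] = if y = x then k else 1 := by
  split_ifs with h
  · rw [h, sec_loc]
  · exact sec_loc_ne k (by simp) (by simpa using h)

theorem loc_comm1 {x y : X} (h : x ≠ y) (k k' : Po X S) : Commute (loc [x] k) (loc [y] k') :=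
  loc_comm k k' (by simp) (by simpa using h.symm)

theorem uniq {ι : Type} (d : ι → Po X S) (u : ι → X) (n : ι → ι) {A B : ι → Po X S}
    (hA : ∀ i, A i = d i * loc [u i] (A (n i))) (hB : ∀ i, B i = d i * loc [u i] (B (n i)))
    (i : ι) : A i = B i := by
  have : ∀ m i, (A i)⁻¹ * B i ∈ St m := by
    intro m
    induction m with
    | zero => exact fun i v hv => absurd hv (by simp)
    | succ m ih =>
      intro i
      rw [hA i, hB i, mul_inv_rev, mul_assoc, inv_mul_cancel_left, ← map_inv, ← map_mul, add_comm]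
      exact loc_St' (u := [u i]) (ih _)
  exact inv_mul_eq_one.1 (funext fun v => this (v.length + 1) i v (by simp))

open Classical in
/-- the solution of a recursion, on reversed words -/
noncomputable def sol {ι : Type} (d : ι → Po X S) (u : ι → X) (n : ι → ι) : List X → ι → S
  | [], i => d i []
  | x :: r, i => if x = u i then sol d u n r (n i) else d i (x :: r).reverse

theorem exists_sol {ι : Type} (d : ι → Po X S) (u : ι → X) (n : ι → ι)
    (h : ∀ i, sec (d i) [u i] = 1) : ∃ A : ι → Po X S, ∀ i, A i = d i * loc [u i] (A (n i)) := by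
  let A : ι → Po X S := fun i v => sol d u n v.reverse i
  refine ⟨A, fun i => ext1 ?_ fun x => ?_⟩
  · rw [mul_app, loc_nil1, mul_one]; rfl
  · rw [sec1, loc_nil1, one_smul, sec_loc1]
    split_ifs with c
    · rw [c, h, one_mul]; funext w; simp [A, sec, sol]
    · rw [mul_one]; funext w; simp [A, sec, sol, c]

open Classical in
/-- the standard generators -/
noncomputable def ee (i : I) : I → Zm := Pi.mulSingle i (.ofAdd 1)

theorem zi_ind [Finite I] {H : Subgroup (I → Zm)} (h : ∀ i, ee i ∈ H) (a : I → Zm) : a ∈ H := by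
  classical
  refine pi_mem_of_mulSingle_mem a fun i => ?_
  convert zpow_mem (h i) (a i).toAdd
  rw [ee, ← Pi.mulSingle_zpow, ← ofAdd_zsmul, smul_eq_mul, mul_one, ofAdd_toAdd]

/-- the data of the construction -/
structure Dt (X S F I : Type) [Group S] [MulAction S X] [Group F] where
  D : Ret F
  π : F →* Equiv.Perm I
  πρ : ∀ q, π (D.ρ q) = π q
  πθ : ∀ q, π (D.θ q) = π q
  t : F →* S
  tinj : ∀ q, t q = 1 → q = 1
  o : X
  a : X
  b : X
  c : X
  O : Set X
  oO : o ∉ O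
  aO : a ∈ O
  bO : b ∈ O
  cO : c ∈ O
  ab : a ≠ b
  ac : a ≠ c
  bc : b ≠ c
  t_o : ∀ q, t q • o = o
  t_O : ∀ q, ∀ x ∈ O, t q • x = x
  S1 : Subgroup S
  S1_fix : ∀ s ∈ S1, ∀ x ∉ O, s • x = x
  S1_perf : S1 ≤ ⁅S1, S1⁆
  s1 : ∃ s ∈ S1, s • a = a ∧ s • b = c
  s2 : ∃ s ∈ S1, s • c = a ∧ s • b = b
  perf : ⊤ ≤ ⁅(⊤ : Subgroup S), (⊤ : Subgroup S)⁆
  trans : ∀ x y : X, ∃ s : S, s • x = y
  y : I → X
  σ : I → S
  y_inj : Function.Injective y
  yO : ∀ i, y i ∉ O ∧ y i ≠ o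
  σO : ∀ i, σ i • y i ∉ O ∧ σ i • y i ≠ o
  σ_y : ∀ i j, σ i • y i ≠ y j
  σ_inj : ∀ i j, σ i • y i = σ j • y j → i = j
  σ_fix : ∀ i j, i ≠ j → σ i • y j = y j
  σ_comm : ∀ i j, Commute (σ i) (σ j)
  t_y : ∀ q i, t q • y i = y (π q i)
  t_σ : ∀ q i, t q * σ i * (t q)⁻¹ = σ (π q i)
  card : ∀ α, D.ρ α = 1 → α ^ Nat.card X = α

namespace Dt

variable (T : Dt X S F I)

/-- the inverse automorphism -/
def ϑ : MulAut F := T.D.θ.symm

theorem πϑ (q : F) : T.π (T.ϑ q) = T.π q :=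
  (T.πθ _).symm.trans (congrArg T.π (T.D.θ.apply_symm_apply q))

/-- portraits that are constant on the levels -/
def C0 (p : S × F) : Po X S := fun v => if v.length = 0 then p.1 else T.t ((T.ϑ ^ v.length) p.2)

/-- elements that are constant on the levels -/
def C : S × F →* Po X S := MonoidHom.mk' T.C0 fun a b => funext fun v => by
  simp only [mul_app, C0, len]
  split_ifs <;> simp

/-- rooted elements -/
def rt : S →* Po X S := T.C.comp (MonoidHom.inl S F)

/-- the copy of the finite group -/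
def cq : F →* Po X S := T.C.comp (T.t.prod (MonoidHom.id F))

theorem rt_def (s : S) : T.rt s = T.C (s, 1) := rfl
theorem cq_def (q : F) : T.cq q = T.C (T.t q, q) := rfl
@[simp] theorem C_nil (p : S × F) : T.C p [] = p.1 := rfl
@[simp] theorem rt_nil (s : S) : T.rt s [] = s := rfl
@[simp] theorem cq_nil (q : F) : T.cq q [] = T.t q := rfl

@[simp] theorem sec_C (p : S × F) (x : X) : sec (T.C p) [x] = T.cq (T.ϑ p.2) := funext fun w => by
  change (if _ then _ else _) = if _ then _ else _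
  rw [if_neg (by simp)]
  split_ifs with h <;> simp [*, pow_succ]

@[simp] theorem sec_rt (s : S) (x : X) : sec (T.rt s) [x] = 1 := by simp [rt_def]
@[simp] theorem sec_cq (q : F) (x : X) : sec (T.cq q) [x] = T.cq (T.ϑ q) := T.sec_C _ x

theorem C_eq (p : S × F) : T.C p = T.cq p.2 * T.rt ((T.t p.2)⁻¹ * p.1) := by
  rw [rt_def, cq_def, ← map_mul]; simp

theorem cq_rt (q : F) (s : S) : T.cq q * T.rt s * (T.cq q)⁻¹ = T.rt (T.t q * s * (T.t q)⁻¹) := by
  rw [rt_def, cq_def, ← map_inv, ← map_mul, ← map_mul]; simp [rt_def]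

theorem rt_loc (s : S) (x : X) (k : Po X S) :
    T.rt s * loc [x] k * (T.rt s)⁻¹ = loc [s • x] k := by rw [conj_loc]; simp

theorem cq_loc (q : F) (x : X) (k : Po X S) : T.cq q * loc [x] k * (T.cq q)⁻¹ =
    loc [T.t q • x] (T.cq (T.ϑ q) * k * (T.cq (T.ϑ q))⁻¹) := by rw [conj_loc]; simp

/-- elements that move a label between two letters -/
noncomputable def hh (x y : X) (α : F) : Po X S := loc [x] (T.cq α) * loc [y] (T.cq α⁻¹)

theorem rt_hh (s : S) (x y : X) (α : F) :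
    T.rt s * T.hh x y α * (T.rt s)⁻¹ = T.hh (s • x) (s • y) α := by
  rw [hh, hh, ← T.rt_loc, ← T.rt_loc]; group

/-- the finite group of decorations -/
def DD : Subgroup (Po X S) := closure {d | (∃ s ∈ T.S1, d = T.rt s) ∨
  (∃ β, d = loc [T.a] (T.rt β)) ∨ ∃ α, T.D.ρ α = 1 ∧ d = T.hh T.c T.b α}

variable {T}

theorem rt_D {s : S} (h : s ∈ T.S1) : T.rt s ∈ T.DD := subset_closure (.inl ⟨s, h, rfl⟩)
theorem loc_D (β : S) : loc [T.a] (T.rt β) ∈ T.DD := subset_closure (.inr (.inl ⟨β, rfl⟩))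
theorem hh_D {α : F} (h : T.D.ρ α = 1) : T.hh T.c T.b α ∈ T.DD :=
  subset_closure (.inr (.inr ⟨α, h, rfl⟩))

theorem D_ind {p : Po X S → Prop} (h1 : ∀ s ∈ T.S1, p (T.rt s))
    (h2 : ∀ β, p (loc [T.a] (T.rt β))) (h3 : ∀ α, T.D.ρ α = 1 → p (T.hh T.c T.b α))
    (h4 : ∀ g h, p g → p h → p (g * h)) {d : Po X S} (hd : d ∈ T.DD) : p d := by
  induction hd using closure_induction'' with
  | one => exact map_one T.rt ▸ h1 1 (one_mem _)
  | mul x y _ _ hx hy => exact h4 x y hx hy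
  | mem x hx =>
    rcases hx with ⟨s, hs, rfl⟩ | ⟨β, rfl⟩ | ⟨α, hα, rfl⟩
    exacts [h1 s hs, h2 β, h3 α hα]
  | inv_mem x hx =>
    rcases hx with ⟨s, hs, rfl⟩ | ⟨β, rfl⟩ | ⟨α, hα, rfl⟩
    · exact map_inv T.rt s ▸ h1 _ (inv_mem hs)
    · rw [← map_inv, ← map_inv]; exact h2 _
    · convert h3 α⁻¹ (by simp [hα])
      rw [hh, hh, mul_inv_rev, ← map_inv, ← map_inv, ← map_inv, ← map_inv, (loc_comm1 T.bc _ _).eq]

theorem D_le {M : Subgroup (Po X S)} (h1 : ∀ s ∈ T.S1, T.rt s ∈ M)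
    (h2 : ∀ d ∈ T.DD, ∀ m ∈ M, d * m * d⁻¹ ∈ M) : T.DD ≤ M := by
  obtain ⟨s1, a1, a2, a3⟩ := T.s1
  obtain ⟨s2, b1, b2, b3⟩ := T.s2
  have c1 : ∀ d ∈ T.DD, ∀ m ∈ M, ⁅d, m⁆ ∈ M := fun d hd m hm => mul_mem (h2 d hd m hm) (inv_mem hm)
  refine fun d => D_ind h1 (fun β => ?_) (fun α hα => ?_) fun _ _ => mul_mem
  · refine (commutator_le (H₃ := M.comap ((loc [T.a]).comp T.rt))).2 (fun u _ w _ => ?_)
      (T.perf (mem_top β))
    rw [mem_comap, MonoidHom.comp_apply, map_commutatorElement]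
    refine grig (g := T.rt s2) (fun h => T.ac ?_) ?_
    · exact MulAction.injective s2 ((List.cons.inj h).1.trans b2.symm)
    · rw [← commutatorElement_inv]
      exact inv_mem (c1 _ (loc_D w) _ (c1 _ (loc_D u) _ (h1 _ b1)))
  · have := c1 _ (mul_mem (mul_mem (rt_D b1) (hh_D hα)) (inv_mem (rt_D b1))) _ (h1 _ a1)
    rw [commutatorElement_def, mul_assoc, mul_assoc, ← mul_assoc (T.rt s1), ← conj_inv, rt_hh,
      rt_hh, b2, b3, a2, a3, hh, hh, mul_inv_rev, ← map_inv, ← map_inv, ← map_inv, ← map_inv,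
      inv_inv, (loc_comm1 T.ab _ _).eq, ← (loc_comm1 T.ac _ _).eq, mul_assoc,
      ← mul_assoc (loc [T.a] _), ← map_mul, ← map_mul, mul_inv_cancel, map_one, map_one, one_mul,
      (loc_comm1 T.bc _ _).eq] at this
    exact this

theorem D_perf : T.DD ≤ ⁅T.DD, T.DD⁆ := by
  refine D_le (fun s hs => ?_) fun d hd m hm => ?_
  · have := mem_map_of_mem T.rt (T.S1_perf hs)
    rw [map_commutator] at this
    have h : T.S1.map T.rt ≤ T.DD := by rintro _ ⟨s, hs, rfl⟩; exact rt_D hs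
    exact commutator_mono h h this
  · have := mul_mem (commutator_mem_commutator hd (T.DD.commutator_le_self hm)) hm
    rwa [commutatorElement_def, inv_mul_cancel_right] at this

variable [FaithfulSMul S X]

theorem t_comm {s : S} (h : ∀ x ∉ T.O, s • x = x) (q : F) : T.t q * s * (T.t q)⁻¹ = s := by
  refine mul_inv_eq_of_eq_mul (eq_of_smul_eq_smul (α := X) fun x => ?_)
  have h1 : ∀ x ∉ T.O, T.t q • x ∉ T.O := fun x hx c =>
    hx (MulAction.injective (T.t q) (T.t_O q _ c) ▸ c)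
  by_cases hx : x ∈ T.O
  · rw [mul_smul, mul_smul, T.t_O q x hx, T.t_O q _ (by_contra fun c =>
      c ((smul_left_cancel s (h _ c)).symm ▸ hx))]
  · rw [mul_smul, mul_smul, h x hx, h _ (h1 x hx)]

theorem cq_D (q : F) {d : Po X S} (hd : d ∈ T.DD) : T.cq q * d * (T.cq q)⁻¹ ∈ T.DD := by
  refine D_ind (p := fun d => T.cq q * d * (T.cq q)⁻¹ ∈ T.DD) (fun s hs => ?_) (fun β => ?_)
    (fun α hα => ?_) (fun g h a b => ?_) hd
  · rw [cq_rt, t_comm (T.S1_fix s hs)]; exact rt_D hs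
  · rw [cq_loc, T.t_O q _ T.aO, cq_rt]; exact loc_D _
  · convert hh_D (T := T) (α := T.ϑ q * α * (T.ϑ q)⁻¹) (by simp [hα])
    rw [hh, hh, ← conj_mul, cq_loc, cq_loc, T.t_O q _ T.bO, T.t_O q _ T.cO]
    simp [mul_assoc]
  · rw [← conj_mul]; exact mul_mem a b

end Dt

end Pool.Agent.P.MP_042d8e_al.CK
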