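import Mathlib

/-! Three lemmas of group theory. -/

set_option autoImplicit false

open scoped commutatorElement

namespace Pool.Agent.P.MP_042d8e_al.CK

open Subgroup

variable {G : Type} [Group G]

/-- a subdirect product modulo a subdirect normal subgroup is nilpotent -/
theorem nil_of_subdirect {W ι : Type} [Group W] [Finite ι] (f : G →* W) (H : Subgroup G)
    (N : ι → Subgroup G) [∀ y, (N y).Normal] (h1 : ∀ y, H.map f ≤ (H ⊓ N y).map f)
    (h2 : ∀ x ∈ H, (∀ y, x ∈ N y) → f x = 1) : Group.IsNilpotent (H.map f) := by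
  classical
  have := Fintype.ofFinite ι
  have key : ∀ s : Finset ι, (H.map f).lowerCentralSeries s.card ≤ (H ⊓ ⨅ y ∈ s, N y).map f := by
    intro s
    induction s using Finset.induction_on with
    | empty => simp
    | insert a s ha ih =>
      have : (⨅ y ∈ s, N y).Normal :=
        normal_iInf_normal fun _ => normal_iInf_normal fun _ => inferInstance
      rw [Finset.card_insert_of_notMem ha, Subgroup.lowerCentralSeries_succ, Finset.iInf_insert]
      refine (commutator_mono ih (h1 a)).trans ?_
      rw [← map_commutator]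
      exact map_mono (le_inf ((commutator_mono inf_le_left inf_le_left).trans H.commutator_le_self)
        (le_inf ((commutator_mono le_top inf_le_right).trans (commutator_le_right _ _))
          ((commutator_mono inf_le_right le_top).trans (commutator_le_left _ _))))
  refine isNilpotent_of_lowerCentralSeries_eq_bot (eq_bot_iff.2 ((key Finset.univ).trans ?_))
  rintro _ ⟨x, hx, rfl⟩
  exact h2 x hx.1 fun y => by simpa using mem_iInf.1 hx.2 y

/-- a torsion-free abelian normal subgroup of finite index of a nilpotent group is central, so a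
power map is a homomorphism -/
theorem pow_hom_of_nil [Group.IsNilpotent G] (B : Subgroup G) [hB : B.Normal] [B.FiniteIndex]
    (hc : ∀ a ∈ B, ∀ b ∈ B, a * b = b * a) (ht : ∀ b ∈ B, ∀ k : ℕ, k ≠ 0 → b ^ k = 1 → b = 1) :
    ∃ e : ℕ, e ≠ 0 ∧ (∀ x, x ^ e ∈ B) ∧ ∀ x y : G, (x * y) ^ e = x ^ e * y ^ e := by
  have key : ∀ i, ∀ b ∈ B, b ∈ Subgroup.upperCentralSeries G i → b ∈ center G := by
    intro i
    induction i with
    | zero => intro b _ h; rw [mem_bot.1 h]; exact one_mem _
    | succ i ih =>
      intro b hb h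
      refine mem_center_iff.2 fun g => ?_
      have z1 : ⁅b, g⁆ ∈ B := commutator_le_left B ⊤ (commutator_mem_commutator hb trivial)
      have z2 := mem_center_iff.1 (ih _ z1 (Subgroup.mem_upperCentralSeries_succ_iff.1 h g))
      have z3 : b * g * b⁻¹ = ⁅b, g⁆ * g := by simp [commutatorElement_def]
      have z4 : g ^ B.index = ⁅b, g⁆ ^ B.index * g ^ B.index := by
        rw [← Commute.mul_pow (z2 g).symm, ← z3, conj_pow, hc b hb _ (B.pow_index_mem g),
          mul_inv_cancel_right]
      have z5 := ht _ z1 _ FiniteIndex.index_ne_zero (right_eq_mul.1 z4)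
      exact (commutatorElement_eq_one_iff_mul_comm.1 z5).symm
  obtain ⟨n, hn⟩ := Group.IsNilpotent.nilpotent G
  have := finiteIndex_of_le (H := B) (K := center G) fun b hb => key n b hb (hn ▸ trivial)
  refine ⟨(center G).index * B.index, mul_ne_zero FiniteIndex.index_ne_zero
    FiniteIndex.index_ne_zero, fun x => pow_mul x _ _ ▸ B.pow_index_mem _, fun x y => ?_⟩
  have h1 : (x * y) ^ (center G).index = x ^ (center G).index * y ^ (center G).index :=
    congrArg Subtype.val ((MonoidHom.transferCenterPow G).map_mul x y)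
  rw [pow_mul, h1, pow_mul, pow_mul]
  exact Commute.mul_pow (mem_center_iff.1 ((center G).pow_index_mem y) _) _

/-- coordinates on a torsion-free subgroup of finite index of the abelianisation -/
theorem exists_coord [Group.FG G] (K : Subgroup G) [K.Normal] [K.FiniteIndex] :
    ∃ (A : Subgroup G) (_ : A.Normal) (_ : A.FiniteIndex) (ι : Type) (_ : Finite ι)
      (l : ι → K →* Multiplicative ℤ), ⁅K, K⁆ ≤ A ∧ A ≤ K ∧ ∀ (e : ℕ) (a : K), a.1 ∈ A →
        (∀ i, (e : ℤ) ∣ (l i a).toAdd) → ∃ b : G, a.1 * (b ^ e)⁻¹ ∈ ⁅K, K⁆ := by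
  have : Group.FG (Abelianization K) :=
    Group.fg_of_surjective (f := Abelianization.of) QuotientGroup.mk_surjective
  obtain ⟨ι, j, _, _, p, hp, e, ⟨φ⟩⟩ :=
    CommGroup.equiv_free_prod_prod_multiplicative_zmod (Abelianization K)
  have : ∀ i, NeZero (p i ^ e i) := fun i => ⟨pow_ne_zero _ (hp i).ne_zero⟩
  let ψ := φ.toMonoidHom.comp Abelianization.of
  let A0 : Subgroup G := ((MonoidHom.snd _ _).comp ψ).ker.map K.subtype
  have : A0.FiniteIndex := ⟨by
    rw [index_map_subtype]; exact mul_ne_zero FiniteIndex.index_ne_zero FiniteIndex.index_ne_zero⟩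
  have hk : ∀ a : K, ψ a = 1 ↔ a.1 ∈ ⁅K, K⁆ := fun a => by
    rw [← map_subtype_commutator, ← Abelianization.ker_of]
    exact (map_eq_one_iff φ φ.injective).trans
      (MonoidHom.mem_ker.symm.trans (mem_map_iff_mem K.subtype_injective).symm)
  refine ⟨A0.normalCore, inferInstance, inferInstance, j, inferInstance,
    fun i => (Pi.evalMonoidHom _ i).comp ((MonoidHom.fst _ _).comp ψ),
    normal_le_normalCore.2 fun a ha => ?_, A0.normalCore_le.trans (map_subtype_le _),
    fun n a ha h => ?_⟩
  · refine ⟨⟨a, K.commutator_le_self ha⟩, ?_, rfl⟩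
    change (ψ _).2 = 1
    rw [(hk _).2 ha]; rfl
  · choose c hc using h
    obtain ⟨b, hb⟩ : ∃ b : K, ψ b = (fun i => Multiplicative.ofAdd (c i), 1) :=
      (φ.surjective.comp QuotientGroup.mk_surjective) _
    refine ⟨b, (hk (a * (b ^ n)⁻¹)).1 ?_⟩
    rw [map_mul, map_inv, map_pow, hb, mul_inv_eq_one]
    refine Prod.ext (funext fun i => Multiplicative.toAdd.injective ?_) ?_
    · simpa using hc i
    · simpa using (mem_map_iff_mem K.subtype_injective).1 (A0.normalCore_le ha)

end Pool.Agent.P.MP_042d8e_al.CK
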