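import Pool.Agent.P.MP_042d8e_al.CK.Ray

/-! The labelling is well defined. -/

set_option autoImplicit false
set_option linter.unusedSectionVars false

open scoped commutatorElement

namespace Pool.Agent.P.MP_042d8e_al.CK

open Po Subgroup SemidirectProduct

variable {X S F I : Type} [Group S] [MulAction S X] [Group F]

namespace Dt

variable [Fintype X] [FaithfulSMul S X] [Fintype I] (T : Dt X S F I)

/-- labelled portraits -/
abbrev PL : Type := Po X S × Lam T.π Zm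

/-- labelled generators -/
def Ct : S × F →* T.PL := T.C.prod (inr.comp (MonoidHom.snd S F))

/-- labelled generators -/
def ct : F →* T.PL := T.cq.prod inr

/-- labelled generators -/
noncomputable def Rt : T.Z →* T.PL := T.R.prod 1

/-- labelled generators -/
noncomputable def ωt (i : I) : T.PL := (T.ω i, inl (ee i))

/-- basic elements -/
def Bs (p : T.PL) : Prop :=
  (∃ s, p = T.Ct (s, 1)) ∨ (∃ z, p = T.Rt z) ∨ (∃ i, p = T.ωt i) ∨ ∃ i, p = (T.ωt i)⁻¹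

/-- the nucleus -/
def Nu (p : T.PL) : Prop := ∃ q b, T.Bs b ∧ p = T.ct q * b

/-- labelled children -/
def Ch (p : T.PL) (f : X → T.PL) : Prop :=
  (∀ x, (f x).1 = sec p.1 [x]) ∧ T.Rel (fun x => (f x).2) p.2

/-- the children that basic elements have at a letter -/
def In (w : X) (p : T.PL) : Prop := p = 1 ∨ (w = T.o ∧ ∃ z, p = T.Rt z) ∨
  (w ∈ T.O ∧ ∃ f, p = T.Ct f) ∨ (∃ j, w = T.y j ∧ p = T.ωt j) ∨
    ∃ j, w = T.σ j • T.y j ∧ p = (T.ωt j)⁻¹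

/-- the children of level `n` lie in the nucleus -/
def Good : ℕ → T.PL → Prop
  | 0, p => T.Nu p
  | n + 1, p => ∃ f, T.Ch p f ∧ ∀ x, Good n (f x)

variable {T}

theorem Ch.mul {p p' : T.PL} {f f' : X → T.PL} (h : T.Ch p f) (h' : T.Ch p' f') :
    T.Ch (p * p') fun x => f (p'.1 [] • x) * f' x :=
  ⟨fun x => by rw [Prod.fst_mul, Prod.fst_mul, sec1, h.1, h'.1], h.2.mul h'.2 _⟩

theorem Bs.nu {b : T.PL} (h : T.Bs b) : T.Nu b := ⟨1, b, h, by rw [map_one, one_mul]⟩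

theorem nu_C (f : S × F) : T.Nu (T.Ct f) :=
  ⟨f.2, _, .inl ⟨(T.t f.2)⁻¹ * f.1, rfl⟩, Prod.ext (T.C_eq f) (by simp [Ct, ct])⟩

theorem nu_one : T.Nu 1 := map_one T.Ct ▸ nu_C 1

theorem Nu.mul {p : T.PL} (h : T.Nu p) (q : F) : T.Nu (T.ct q * p) := by
  obtain ⟨q', b, hb, rfl⟩ := h
  exact ⟨q * q', b, hb, by rw [map_mul, mul_assoc]⟩

theorem ct_ω (q : F) (i : I) : T.ct q * T.ωt i * (T.ct q)⁻¹ = T.ωt (T.π q i) :=
  Prod.ext (T.cq_ω q i) (by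
    change inr q * inl _ * (inr q)⁻¹ = inl _
    rw [← map_inv, ← inl_aut, ← aut_ee]; rfl)

theorem Bs.conj {b : T.PL} (h : T.Bs b) (q : F) : T.Bs (T.ct q * b * (T.ct q)⁻¹) := by
  rcases h with ⟨s, rfl⟩ | ⟨z, rfl⟩ | ⟨i, rfl⟩ | ⟨i, rfl⟩
  · exact .inl ⟨_, Prod.ext (T.cq_rt q s) (by simp [Ct, ct])⟩
  · exact .inr (.inl ⟨_, Prod.ext (T.cq_R q z) (by simp [Rt, ct])⟩)
  · exact .inr (.inr (.inl ⟨_, ct_ω q i⟩))
  · exact .inr (.inr (.inr ⟨_, by rw [← ct_ω, conj_inv]⟩))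

theorem Bs.ch {b : T.PL} (h : T.Bs b) :
    ∃ f, T.Ch b f ∧ ∀ x, T.In x (f x) ∧ T.In (b.1 [] • x) (f x)⁻¹ := by
  classical
  rcases h with ⟨s, rfl⟩ | ⟨z, rfl⟩ | ⟨i, rfl⟩ | ⟨i, rfl⟩
  · exact ⟨fun _ => 1, ⟨fun x => (T.sec_rt s x).symm, by simpa [Ct] using T.rel_one⟩,
      fun x => ⟨.inl rfl, .inl inv_one⟩⟩
  · obtain ⟨h1, f, h2, h3, h4⟩ := D_Cf (z 1).2
    refine ⟨fun x => if x = T.o then T.Rt (T.sh z) else T.Ct (f x), ⟨fun x => ?_, ?_⟩, fun x => ?_⟩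
    · change _ = sec (T.R z) _
      rw [sec_R, h2]; beta_reduce; split_ifs <;> rfl
    · convert h4 using 2 with x
      · beta_reduce; split_ifs with c
        · rw [c, h3 _ T.oO]; simp [Rt]
        · rfl
      · rfl
    change T.In x _ ∧ T.In (T.R z [] • x) _
    rw [R_nil]
    beta_reduce
    split_ifs with c
    · exact ⟨.inr (.inl ⟨c, _, rfl⟩), .inr (.inl ⟨c ▸ h1 _ (c ▸ T.oO), _, (map_inv _ _).symm⟩)⟩
    by_cases c' : x ∈ T.O
    · exact ⟨.inr (.inr (.inl ⟨c', _, rfl⟩)), .inr (.inr (.inl ⟨by_contra fun c =>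
        c ((smul_left_cancel _ (h1 _ c)).symm ▸ c'), _, (map_inv _ _).symm⟩))⟩
    · rw [h3 x c', map_one]; exact ⟨.inl rfl, .inl inv_one⟩
  · refine ⟨fun x => if x = T.y i then T.ωt i else 1, ⟨fun x => ?_, ?_⟩, fun x => ?_⟩
    · change _ = sec (T.ω i) _
      rw [sec_ω]; beta_reduce; split_ifs <;> rfl
    · convert T.rel_single (ee i) (T.y i) using 2 with x
      · beta_reduce; split_ifs <;> rfl
      · rfl
    change T.In x _ ∧ T.In (T.ω i [] • x) _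
    rw [ω_nil]
    beta_reduce
    split_ifs with c
    · exact ⟨.inr (.inr (.inr (.inl ⟨i, c, rfl⟩))), .inr (.inr (.inr (.inr ⟨i, c ▸ rfl, rfl⟩)))⟩
    · exact ⟨.inl rfl, .inl inv_one⟩
  · refine ⟨fun x => if x = T.σ i • T.y i then (T.ωt i)⁻¹ else 1, ⟨fun x => ?_, ?_⟩, fun x => ?_⟩
    · obtain ⟨x, rfl⟩ := MulAction.surjective (T.σ i) x
      have := sec_inv (T.ω i) [x]
      rw [smul_cons, ω_nil, sec_ω] at this
      refine .trans ?_ this.symm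
      simp only [smul_left_cancel_iff]
      split_ifs
      exacts [rfl, inv_one.symm]
    · convert T.rel_single (ee i)⁻¹ (T.σ i • T.y i) using 2 with x
      · beta_reduce; split_ifs <;> simp [ωt]
      · simp [ωt]
    change T.In x _ ∧ T.In ((T.ω i)⁻¹ [] • x) _
    rw [show (T.ω i)⁻¹ [] = _ from inv_app (T.ω i) [], ω_nil]
    beta_reduce
    split_ifs with c
    · exact ⟨.inr (.inr (.inr (.inr ⟨i, c, rfl⟩))),
        .inr (.inr (.inr (.inl ⟨i, by rw [c, inv_smul_smul], inv_inv _⟩)))⟩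
    · exact ⟨.inl rfl, .inl inv_one⟩

theorem In.nu {w : X} {p p' : T.PL} (h : T.In w p) (h' : T.In w p') : T.Nu (p * p'⁻¹) := by
  have b1 := fun z => Bs.nu (T := T) (.inr (.inl ⟨z, rfl⟩))
  have b2 := fun i => Bs.nu (T := T) (.inr (.inr (.inl ⟨i, rfl⟩)))
  have b3 := fun i => Bs.nu (T := T) (.inr (.inr (.inr ⟨i, rfl⟩)))
  have c1 := T.oO
  have c2 := T.yO
  have c3 := T.σO
  have c4 := T.σ_y
  rcases h with rfl | ⟨e, z, rfl⟩ | ⟨e, z, rfl⟩ | ⟨z, e, rfl⟩ | ⟨z, e, rfl⟩ <;>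
    rcases h' with rfl | ⟨e', z', rfl⟩ | ⟨e', z', rfl⟩ | ⟨z', e', rfl⟩ | ⟨z', e', rfl⟩ <;>
    first
    | (simp only [one_mul, inv_one, mul_one, inv_inv, ← map_inv, ← map_mul]
       first | exact nu_one | exact b1 _ | exact nu_C _ | exact b2 _ | exact b3 _)
    | (rw [T.y_inj (e.symm.trans e'), mul_inv_cancel]; exact nu_one)
    | (rw [T.σ_inj _ _ (e.symm.trans e'), mul_inv_cancel]; exact nu_one)
    | (exfalso; grind)

theorem Nu.mul_nu {p p' : T.PL} (h : T.Nu p) (h' : T.Nu p') :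
    ∃ f, T.Ch (p * p') f ∧ ∀ x, T.Nu (f x) := by
  obtain ⟨q, b, hb, rfl⟩ := h
  obtain ⟨q', b', hb', rfl⟩ := h'
  obtain ⟨f, h1, h2⟩ := (hb.conj q'⁻¹).ch
  obtain ⟨f', h3, h4⟩ := hb'.ch
  have h5 : T.Ch (T.ct (q * q')) fun _ => T.ct (T.ϑ (q * q')) :=
    ⟨fun x => (T.sec_cq _ x).symm, T.rel_const _⟩
  refine ⟨_, by convert h5.mul (h1.mul h3) using 1; simp [mul_assoc], fun x => Nu.mul ?_ _⟩
  simpa using (h2 _).1.nu (h4 x).2

theorem good_succ : ∀ {n : ℕ} {p : T.PL}, T.Good n p → T.Good (n + 1) p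
  | 0, p, h => mul_one p ▸ Nu.mul_nu h nu_one
  | _ + 1, _, ⟨f, h1, h2⟩ => ⟨f, h1, fun x => good_succ (h2 x)⟩

theorem good_mul : ∀ {n : ℕ} {p p' : T.PL}, T.Good n p → T.Good n p' → T.Good (n + 1) (p * p')
  | 0, _, _, h, h' => Nu.mul_nu h h'
  | _ + 1, _, _, ⟨_, h1, h2⟩, ⟨_, h3, h4⟩ => ⟨_, h1.mul h3, fun x => good_mul (h2 _) (h4 x)⟩

theorem good_triv : ∀ {n : ℕ} {p : T.PL}, T.Good n p → p.1 = 1 → p.2 = 1
  | 0, _, ⟨q, b, hb, e⟩, h => by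
    subst e
    have h1 : T.t q * b.1 [] = 1 := congrFun h []
    rcases hb with ⟨s, rfl⟩ | ⟨z, rfl⟩ | ⟨i, rfl⟩ | ⟨i, rfl⟩
    · have h2 : sec (T.cq q * T.rt s) [T.o] = 1 := congrArg (sec · _) h
      rw [sec1, sec_rt, mul_one, sec_cq] at h2
      rw [T.ϑ.map_eq_one_iff.1 (T.tinj _ (congrFun h2 []))]
      simp [Ct]
    · change _ * T.R z [] = 1 at h1
      rw [T.tinj q (eq_of_smul_eq_smul (α := X) fun x => ?_)]
      · simp [Rt]
      by_cases c : x ∈ T.O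
      · rw [T.t_O q x c, one_smul]
      · rw [← h1, mul_smul, R_nil, (D_Cf (z 1).2).1 x c]
    · refine absurd ?_ (T.σ_y i (T.π q⁻¹ i))
      rw [← T.t_y, map_inv, inv_eq_of_mul_eq_one_right h1, ← T.ω_nil]; rfl
    · refine absurd ?_ (T.σ_y i (T.π q i))
      rw [← T.t_y, ← T.ω_nil, mul_inv_eq_one.1 ((congrArg _ (inv_app (T.ω i) []).symm).trans h1)]
  | _ + 1, _, ⟨f, h1, h2⟩, h => Rel.triv (by
    convert h1.2 using 2 with x
    exact (good_triv (h2 x) (by rw [h1.1, h, sec_one])).symm)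

end Dt

end Pool.Agent.P.MP_042d8e_al.CK
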