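import Pool.Agent.P.MP_042d8e_al.CK.Trf

/-! The classification of the closed subgroups of congruence kernels. -/

set_option autoImplicit false

namespace Pool.Agent.P.MP_042d8e_al.CK

open SemidirectProduct ProfiniteGrp.ProfiniteCompletion

/-- the retraction of a wreath product -/
def Ret.wr {F : Type} [Group F] (D : Ret F) (I : Type) :
    Ret (Lam (MonoidHom.id (Equiv.Perm I)) F) where
  ρ := mp D.ρ (MonoidHom.id _) fun _ => rfl
  θ := MonoidHom.toMulEquiv (mp D.θ.toMonoidHom (MonoidHom.id _) fun _ => rfl)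
    (mp D.θ.symm.toMonoidHom (MonoidHom.id _) fun _ => rfl)
    (MonoidHom.ext fun _ => SemidirectProduct.ext (funext fun _ => D.θ.symm_apply_apply _) rfl)
    (MonoidHom.ext fun _ => SemidirectProduct.ext (funext fun _ => D.θ.apply_symm_apply _) rfl)
  idem _ := SemidirectProduct.ext (funext fun _ => D.idem _) rfl
  comm a b ha hb := by
    have h1 : a.right = 1 := congrArg right ha
    have h2 : b.right = 1 := congrArg right hb
    refine SemidirectProduct.ext (funext fun i => ?_) (by simp [h1, h2])
    rw [lam_left, lam_left, h1, h2]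
    exact D.comm _ _ (congrFun (congrArg left ha) _) (congrFun (congrArg left hb) _)

theorem Ret.wr_iter {F : Type} [Group F] (D : Ret F) {I : Type} (n : ℕ) :
    ∀ a : Lam (MonoidHom.id (Equiv.Perm I)) F,
      (D.wr I).τ^[n] a = ⟨fun i => D.τ^[n] (a.left i), a.right⟩ := by
  induction n with
  | zero => exact fun _ => rfl
  | succ n ih => exact fun a => ih _

/-- the cocycle of a transversal -/
noncomputable def coc {P : Type} [Group P] (U : Subgroup P) (p : P) (i : P ⧸ U) : U :=
  ⟨i.out⁻¹ * (p * (p⁻¹ • i).out), QuotientGroup.eq.1 (by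
    rw [← smul_eq_mul, MulAction.Quotient.mk_smul_out, smul_inv_smul, QuotientGroup.out_eq'])⟩

theorem coc_mul {P : Type} [Group P] (U : Subgroup P) (p q : P) (i : P ⧸ U) :
    coc U (p * q) i = coc U p i * coc U q (p⁻¹ • i) :=
  Subtype.ext (by simp [coc, mul_smul, mul_assoc])

theorem suff (P : ProfiniteGrp.{0}) (U : OpenSubgroup P) (Q : Type) [Group Q] [Finite Q]
    [TopologicalSpace Q] [DiscreteTopology Q] [Group.IsNilpotent Q] (f : U →* (ℕ → ZHat × Q))
    (hf : Continuous f) (inj : Function.Injective f) :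
    ∃ (X : Type) (_ : Finite X) (_ : Nontrivial X) (G : Subgroup (Equiv.Perm (List X))),
      Group.FG G ∧ RegBranch G ∧ Embeds P (levelStab G) := by
  obtain ⟨F, _, _, D, n, e, e1, e2⟩ := emb_nil Q
  let I := P ⧸ U.toSubgroup
  have : DiscreteTopology I := QuotientGroup.discreteTopology U.isOpen
  obtain ⟨X, S, _, _, _, _, _, _, G, M, h1, h2, ⟨B⟩⟩ :=
    exists_group (D.wr I) rightHom (fun _ => rfl) fun _ => rfl
  let γ : ℕ → P →* Lam (rightHom : Lam (MonoidHom.id (Equiv.Perm I)) F →* _) (Hat Zm) := fun k =>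
    MonoidHom.mk' (fun p => ⟨fun i => (f (coc _ p i) k).1,
      ⟨fun i => e (f (coc _ p i) k).2, MulAction.toPermHom P I p⟩⟩) fun p q =>
      have h := fun i => (congrArg f (coc_mul _ p q i)).trans (map_mul f _ _)
      SemidirectProduct.ext (funext fun i => congrArg (fun z => (z k).1) (h i))
        (SemidirectProduct.ext (funext fun i =>
          (congrArg (fun z => e (z k).2) (h i)).trans (map_mul e _ _)) (map_mul _ p q))
  have c0 : ∀ i : I, IsLocallyConstant fun p : P => p • i := fun i =>
    (IsLocallyConstant.iff_continuous _).2 (by fun_prop)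
  have c1 : ∀ i : I, Continuous fun p : P => f (coc _ p i) := fun i => hf.comp
    ((continuous_const.mul (continuous_id.mul (((c0 i).comp_continuous continuous_inv).comp
      Quotient.out).continuous)).subtype_mk _)
  refine ⟨X, ‹_›, ‹_›, G, h1, regBranch_of M h2 B.K_br, levelStab_eq M h2 ▸ B.embed γ
    (fun p => inr (MulAction.toPermHom P I p)) n (fun p k => ?_) (fun p => ?_) (fun p => ?_)
    (fun k i => ((continuous_apply k).comp (c1 i)).fst) (fun k => ?_) fun p h => ?_⟩
  · rw [Ret.wr_iter]
    exact SemidirectProduct.ext (funext fun i => e2 _) rfl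
  · exact SemidirectProduct.ext (funext fun i => map_one D.ρ) rfl
  · exact SemidirectProduct.ext (funext fun i => map_one D.θ) rfl
  · exact ((lc_pi fun i => (IsLocallyConstant.iff_continuous _).2
      ((continuous_apply k).comp (c1 i)).snd).prodMk (IsLocallyConstant.desc
        (fun p => MulAction.toPermHom P I p) (⇑) (lc_pi c0) DFunLike.coe_injective)).comp
      fun z => (⟨fun i => e (z.1 i), z.2⟩ : Lam (MonoidHom.id _) F)
  · have a1 : p⁻¹ • ((1 : P) : I) = (1 : P) :=
      inv_smul_eq_iff.2 (Equiv.congr_fun (congrArg (·.right.right) (h 0)) _).symm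
    have a2 : coc U.toSubgroup p (1 : P) = 1 := inj ((funext fun k => Prod.ext
      (congrFun (congrArg left (h k)) _) (e1 ((congrFun (congrArg (·.right.left) (h k)) _).trans
        (map_one e).symm))).trans (map_one f).symm)
    simpa [coc, a1, inv_mul_eq_one] using a2

theorem nec (P : ProfiniteGrp.{0}) {X : Type} [Finite X] [Nontrivial X]
    {G : Subgroup (Equiv.Perm (List X))} [Group.FG G] (hG : RegBranch G) (N : NT G)
    (h : Embeds P N.1) :
    ∃ (U : OpenSubgroup P) (Q : Type) (_ : Group Q) (_ : Finite Q) (_ : TopologicalSpace Q)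
      (_ : DiscreteTopology Q), Group.IsNilpotent Q ∧
        ∃ f : U →* (ℕ → ZHat × Q), Continuous f ∧ Function.Injective f := by
  obtain ⟨M, h1, K, _, _, h2⟩ := hG.md
  obtain ⟨f, hf, inj, h⟩ := h
  obtain ⟨Q, _, _, a, φ, b, c, d⟩ := h2.nec
  let : TopologicalSpace Q := ⊥
  let U : OpenSubgroup P := ⟨(cl K).comap f, (cl_open K).preimage hf⟩
  let g : U →* (cl K).subgroupOf M.C :=
    ((f.comp U.toSubgroup.subtype).codRestrict M.C fun p => h2.seqKer_le N (h p)).codRestrict _ fun p => p.2
  have hg : Continuous g := ((hf.comp continuous_subtype_val).subtype_mk _).subtype_mk _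
  exact ⟨U, Q, _, ‹_›, _, ⟨rfl⟩, a, φ.comp g, continuous_pi fun n =>
    ((b n).comp hg).prodMk ((c n).comp_continuous hg).continuous,
    d.comp fun x y e => Subtype.ext (inj (congrArg (·.1.1) e))⟩

theorem RegBranch.nt {X : Type} [Finite X] {G : Subgroup (Equiv.Perm (List X))}
    (hG : RegBranch G) : ∃ N : NT G, N.1 = levelStab G := by
  obtain ⟨M, h1, -⟩ := hG.md
  exact ⟨⟨_, M.st_nt⟩, (levelStab_eq M h1).symm⟩

end Pool.Agent.P.MP_042d8e_al.CK
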