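import Pool.Agent.P.MP_042d8e_al.CK.Compl
import Pool.Agent.P.MP_042d8e_al.Tree

/-! Self-similar groups given by portraits; sections on the profinite completion. -/

set_option autoImplicit false
set_option linter.unusedSectionVars false

open scoped commutatorElement

namespace Pool.Agent.P.MP_042d8e_al.CK

open Po

/-- a self-similar group that is transitive on the levels -/
structure Md (G X S : Type) [Group G] [Group S] [MulAction S X] where
  j : G →* Po X S
  inj : Function.Injective j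
  sc : G → List X → G
  j_sc : ∀ g v, j (sc g v) = sec (j g) v
  trans : ∀ v w : List X, v.length = w.length → ∃ g, j g • v = w

variable {G X S : Type} [Group G] [Group S] [MulAction S X] [Finite X] [Finite S]

instance St_fi (n : ℕ) {G : Type} [Group G] (j : G →* Po X S) : ((St n).comap j).FiniteIndex := by
  have := (List.finite_length_lt X n).to_subtype
  refine finiteIndex_of_fun (fun g (v : {v : List X | v.length < n}) => j g v.1) fun a b h => ?_
  rw [Subgroup.mem_comap, map_mul, map_inv]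
  exact inv_mul_mem_St fun v hv => congrFun h ⟨v, hv⟩

instance lev_finite (n : ℕ) : Finite {v : List X // v.length = n} :=
  (List.finite_length_eq X n).to_subtype

theorem exists_moved [FaithfulSMul S X] {g : Po X S} (h : g ≠ 1) : ∃ u : List X, g • u ≠ u := by
  by_contra hh
  push Not at hh
  exact h (funext fun v => eq_of_smul_eq_smul (α := X) fun x =>
    (List.cons.inj (hh (x :: v))).1.trans (one_smul S x).symm)

namespace Md

variable (M : Md G X S)

/-- level stabilisers -/
abbrev St (n : ℕ) : Subgroup G := (Po.St n).comap M.j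

/-- the elements that can be placed below `v` -/
noncomputable def R (v : List X) : Subgroup G := M.j.range.comap ((loc v).comp M.j)

open Classical in
/-- the copy of `g` below `v` -/
noncomputable def lc (v : List X) (g : G) : G := if h : g ∈ M.R v then h.choose else 1

variable {M}

theorem j_lc {v : List X} {g : G} (h : g ∈ M.R v) : M.j (M.lc v g) = loc v (M.j g) := by
  rw [lc, dif_pos h]; exact h.choose_spec

theorem lc_mul {v : List X} {g k : G} (h : g ∈ M.R v) (hk : k ∈ M.R v) :
    M.lc v (g * k) = M.lc v g * M.lc v k :=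
  M.inj (by rw [map_mul, j_lc h, j_lc hk, j_lc (mul_mem h hk), map_mul, map_mul])

/-- the copy as a homomorphism -/
noncomputable def lcH {K : Subgroup G} {v : List X} (h : K ≤ M.R v) : K →* G :=
  MonoidHom.mk' (fun k => M.lc v k) fun a b => lc_mul (h a.2) (h b.2)

theorem lc_St {v : List X} {g : G} (h : g ∈ M.R v) {m : ℕ} (hg : g ∈ M.St m) :
    M.lc v g ∈ M.St (v.length + m) := by
  rw [Subgroup.mem_comap, j_lc h]; exact loc_St' hg

theorem sc_lc {v : List X} {g : G} (h : g ∈ M.R v) : M.sc (M.lc v g) v = g :=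
  M.inj (by rw [M.j_sc, j_lc h, sec_loc])

theorem sc_lc_ne {v u : List X} {g : G} (h : g ∈ M.R v) (h1 : u.length = v.length) (h2 : u ≠ v) :
    M.sc (M.lc v g) u = 1 := M.inj (by rw [M.j_sc, j_lc h, sec_loc_ne _ h1 h2, map_one])

theorem sc_mul (g h : G) (u : List X) : M.sc (g * h) u = M.sc g (M.j h • u) * M.sc h u :=
  M.inj (by rw [map_mul, M.j_sc, M.j_sc, M.j_sc, map_mul, sec_mul])

theorem sc_mul_St {n : ℕ} (g : G) {h : G} (hh : h ∈ M.St n) {u : List X} (hu : u.length ≤ n) :
    M.sc (g * h) u = M.sc g u * M.sc h u := by rw [sc_mul, St_fix hh hu]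

theorem sc_sc (g : G) (u w : List X) : M.sc (M.sc g u) w = M.sc g (w ++ u) :=
  M.inj (by rw [M.j_sc, M.j_sc, M.j_sc, sec_sec])

theorem sc_nil (g : G) : M.sc g [] = g := M.inj (by rw [M.j_sc, sec_nil])

theorem sc_St {n k : ℕ} {g : G} {u : List X} (hg : g ∈ M.St n) (h : u.length + k ≤ n) :
    M.sc g u ∈ M.St k := by rw [Subgroup.mem_comap, M.j_sc]; exact sec_St hg h

theorem sc_conj (a : G) {g : G} {u : List X} (h : M.j g • u = u) :
    M.sc (a * g * a⁻¹) (M.j a • u) = M.sc a u * M.sc g u * (M.sc a u)⁻¹ :=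
  M.inj (by simp only [map_mul, map_inv, M.j_sc]; exact sec_conj _ _ h)

theorem decomp' (H : Subgroup G) {n : ℕ} {g : G} (hg : g ∈ M.St n)
    (h : ∀ u : List X, u.length = n → M.sc g u ∈ M.R u ∧ M.lc u (M.sc g u) ∈ H) : g ∈ H :=
  (Subgroup.mem_map_iff_mem M.inj).1 (decomp (H.map M.j) hg fun u hu =>
    ⟨_, (h u hu).2, by rw [j_lc (h u hu).1, M.j_sc]⟩)

variable (M)

/-- the section as a homomorphism -/
def scH (u : List X) : M.St u.length →* G :=
  MonoidHom.mk' (fun g => M.sc g u) fun a b => sc_mul_St a.1 b.2 le_rfl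

theorem exists_sig (u : List X) :
    ∃ t : Hat G → Hat G, Continuous t ∧ ∀ g, t (et g) = et (M.sc g u) :=
  ext_pro _ fun N => by
    obtain ⟨N', hN⟩ := fi_map (M.scH u) N.toSubgroup
    refine ⟨N', fun g n hn => ?_⟩
    obtain ⟨a, b⟩ := hN n hn
    rw [sc_mul_St g a le_rfl, inv_mul_cancel_left]
    exact b

/-- sections on the completion -/
noncomputable def σ (u : List X) : Hat G → Hat G := (M.exists_sig u).choose

@[fun_prop] theorem σ_cont (u : List X) : Continuous (M.σ u) := (M.exists_sig u).choose_spec.1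

theorem σ_et (u : List X) (g : G) : M.σ u (et g) = et (M.sc g u) := (M.exists_sig u).choose_spec.2 g

/-- the congruence kernel -/
def C : Subgroup (Hat G) := ⨅ n, cl (M.St n)

instance : M.C.Normal := Subgroup.normal_iInf_normal fun _ => inferInstance

theorem C_closed : IsClosed (M.C : Set (Hat G)) := by
  rw [C, Subgroup.coe_iInf]; exact isClosed_iInter fun _ => cl_closed _

variable {M}

theorem mem_C {x : Hat G} : x ∈ M.C ↔ ∀ n, x ∈ cl (M.St n) := Subgroup.mem_iInf

theorem σ_mul {n : ℕ} (x : Hat G) {y : Hat G} (hy : y ∈ cl (M.St n)) {u : List X}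
    (hu : u.length ≤ n) : M.σ u (x * y) = M.σ u x * M.σ u y :=
  cl_ind₂ (p := fun x y => M.σ u (x * y) = M.σ u x * M.σ u y)
    (isClosed_eq (by fun_prop) (by fun_prop))
    (fun g _ k hk => by rw [← map_mul, σ_et, σ_et, σ_et, sc_mul_St g hk hu, map_mul]) (cl_top x) hy

theorem σ_σ (x : Hat G) (u w : List X) : M.σ w (M.σ u x) = M.σ (w ++ u) x :=
  cl_ind (p := fun x => M.σ w (M.σ u x) = M.σ (w ++ u) x) (isClosed_eq (by fun_prop) (by fun_prop))
    (fun g _ => by rw [σ_et, σ_et, σ_et, sc_sc]) (cl_top x)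

theorem σ_nil (x : Hat G) : M.σ [] x = x :=
  cl_ind (p := fun x => M.σ [] x = x) (isClosed_eq (by fun_prop) (by fun_prop))
    (fun g _ => by rw [σ_et, sc_nil]) (cl_top x)

theorem σ_C {x : Hat G} (hx : x ∈ M.C) (u : List X) : M.σ u x ∈ M.C := mem_C.2 fun k =>
  cl_ind (p := fun x => M.σ u x ∈ cl (M.St k)) ((cl_closed _).preimage (by fun_prop))
    (fun g hg => by rw [σ_et]; exact et_cl (sc_St hg le_rfl)) (mem_C.1 hx (u.length + k))

theorem σ_conj (a : G) {x : Hat G} (hx : x ∈ M.C) (u : List X) :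
    M.σ (M.j a • u) (et a * x * (et a)⁻¹) = et (M.sc a u) * M.σ u x * (et (M.sc a u))⁻¹ :=
  cl_ind (p := fun x => M.σ (M.j a • u) (et a * x * (et a)⁻¹) =
      et (M.sc a u) * M.σ u x * (et (M.sc a u))⁻¹) (isClosed_eq (by fun_prop) (by fun_prop))
    (fun g hg => by
      rw [← map_inv, ← map_mul, ← map_mul, σ_et, σ_et, sc_conj a (St_fix hg le_rfl), map_mul,
        map_mul, map_inv]) (mem_C.1 hx u.length)

/-- the section as an endomorphism of the congruence kernel -/
noncomputable def σC (M : Md G X S) (u : List X) : M.C →* M.C :=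
  MonoidHom.mk' (fun x => ⟨M.σ u x, σ_C x.2 u⟩) fun _ b =>
    Subtype.ext (σ_mul _ (mem_C.1 b.2 u.length) le_rfl)

/-- an element of the closure of a level stabiliser is assembled from its sections -/
theorem mem_cl_of_sec {H K L : Subgroup G} [K.FiniteIndex] [L.FiniteIndex] {n : ℕ} (h1 : H ≤ K)
    (h2 : ∀ v : List X, v.length = n → K ≤ M.R v ∧ ∀ h ∈ H, M.lc v h ∈ L) {x : Hat G}
    (hx : x ∈ cl (M.St n)) (h3 : ∀ v : List X, v.length = n → M.σ v x ∈ cl H) : x ∈ cl L := by
  choose N hN using fun v : {v : List X // v.length = n} => fi_map (lcH (h2 v.1 v.2).1) L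
  refine mem_cl.2 fun N' => ?_
  obtain ⟨g, hg, e⟩ := approx hx ((pj_lc N').prodMk
    (lc_pi fun v => (pj_lc (N v)).comp_continuous (M.σ_cont v.1)))
  obtain ⟨e1, e2⟩ := Prod.mk.inj e
  refine ⟨g, decomp' L hg fun u hu => ?_, e1.symm⟩
  obtain ⟨h, hh, e3⟩ := mem_cl.1 (h3 u hu) (N ⟨u, hu⟩)
  have e4 := (congrFun e2 ⟨u, hu⟩).trans e3
  rw [Function.comp_apply, σ_et, pj_et, eq_comm, QuotientGroup.eq] at e4
  obtain ⟨a, b⟩ := hN _ _ e4
  obtain ⟨c, d⟩ := h2 u hu
  rw [← mul_inv_cancel_left h (M.sc g u)]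
  exact ⟨c (mul_mem (h1 hh) a), lc_mul (c (h1 hh)) (c a) ▸ mul_mem (d h hh) b⟩

theorem exists_ne_one [Nontrivial X] (M : Md G X S) (N : Subgroup G) [hN : N.FiniteIndex] :
    ∃ g ∈ N, g ≠ 1 := by
  classical
  by_contra hh
  push Not at hh
  obtain rfl : N = ⊥ := eq_bot_iff.2 hh
  have : Finite G := Nat.finite_of_card_ne_zero (by simpa using hN.index_ne_zero)
  obtain ⟨a, b, hab⟩ := exists_pair_ne X
  choose f hf using fun i : Fin (Nat.card G + 1) => M.trans (List.replicate (Nat.card G) a)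
    (List.replicate i b ++ List.replicate (Nat.card G - i) a) (by simp; omega)
  have := Nat.card_le_card_of_injective f fun i k h => by
    have h1 := congrArg (List.count b) ((hf i).symm.trans (h ▸ hf k))
    exact Fin.ext (by simpa [List.count_replicate, hab] using h1)
  simp at this

/-- a nontrivial normal subgroup moves every vertex of some level -/
theorem exists_level [FaithfulSMul S X] [Nontrivial X] (M : Md G X S) (N : Subgroup G)
    [N.FiniteIndex] [hN : N.Normal] :
    ∃ n, ∀ v : List X, n ≤ v.length → ∃ g ∈ N, M.j g • v ≠ v := by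
  obtain ⟨g, hg, h1⟩ := M.exists_ne_one N
  obtain ⟨u, hu⟩ := exists_moved (g := M.j g) fun h => h1 (M.inj (h.trans (map_one _).symm))
  refine ⟨u.length, fun v hv => ?_⟩
  obtain ⟨a, ha⟩ := M.trans (v.take (v.length - u.length) ++ u) v (by simp; omega)
  refine ⟨a * g * a⁻¹, hN.conj_mem g hg a, ?_⟩
  generalize v.take (v.length - u.length) = w at ha
  subst ha
  rw [map_mul, map_mul, map_inv, mul_smul, inv_smul_smul, mul_smul, Ne, smul_left_cancel_iff,
    smul_append]
  exact fun h => hu (List.append_inj_right' h (len _ _))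

theorem lc_comm {K N : Subgroup G} [hN : N.Normal] {v : List X} (hK : K ≤ M.R v) {g : G}
    (hg : g ∈ N) (hv : M.j g • v ≠ v) {k : G} (hk : k ∈ ⁅K, K⁆) : M.lc v k ∈ N := by
  have : ⁅K, K⁆ ≤ (N.comap (lcH hK)).map K.subtype := Subgroup.commutator_le.2 fun a ha b hb => by
    refine ⟨⁅(⟨a, ha⟩ : K), ⟨b, hb⟩⁆, (Subgroup.mem_map_iff_mem M.inj).1 ?_, rfl⟩
    change M.j (M.lc v ⁅a, b⁆) ∈ _
    rw [j_lc (g := ⁅a, b⁆) (hK (mul_mem (mul_mem (mul_mem ha hb) (inv_mem ha)) (inv_mem hb))),
      map_commutatorElement]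
    refine grig hv ⟨⁅⁅M.lc v a, g⁆, M.lc v b⁆, Subgroup.commutator_le_left N ⊤
      (Subgroup.commutator_mem_commutator (Subgroup.commutator_le_right ⊤ N
        (Subgroup.commutator_mem_commutator trivial hg)) trivial), ?_⟩
    rw [map_commutatorElement, map_commutatorElement, j_lc (hK ha), j_lc (hK hb)]
  obtain ⟨a, ha, rfl⟩ := this hk
  exact ha

end Md

end Pool.Agent.P.MP_042d8e_al.CK
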