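import Pool.Agent.P.MP_042d8e_al.CK.Model
import Pool.Agent.P.MP_042d8e_al.CK.GrpLem

/-! The congruence kernel of a self-similar regular branch group is virtually nilpotent. -/

set_option autoImplicit false
set_option linter.unusedSectionVars false

open scoped commutatorElement

namespace Pool.Agent.P.MP_042d8e_al.CK

open Po Subgroup

variable {G X S : Type} [Group G] [Group S] [MulAction S X] [Finite X] [Finite S]

theorem cl_inf {H L : Subgroup G} [L.FiniteIndex] {x : Hat G} (h1 : x ∈ cl H) (h2 : x ∈ cl L) :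
    x ∈ cl (H ⊓ L) := mem_cl.2 fun N => by
  obtain ⟨N', hN⟩ := exists_core L
  obtain ⟨g, hg, e⟩ := mem_cl.1 h1 (N ⊓ N')
  obtain ⟨l, hl, e'⟩ := mem_cl.1 h2 N'
  have := hN _ (QuotientGroup.eq.1 (e'.symm.trans (pj_mono inf_le_right e)))
  exact ⟨g, ⟨hg, (L.mul_mem_cancel_left (inv_mem hl)).1 this⟩, pj_mono inf_le_left e⟩

instance cl_fi (K : Subgroup G) [K.FiniteIndex] : (cl K).FiniteIndex := by
  obtain ⟨N, hN⟩ := exists_core K
  exact finiteIndex_of_le (H := (pj N).ker) fun x hx => cl_mono hN (pj_eq_one.1 hx)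

theorem cl_open (K : Subgroup G) [K.FiniteIndex] : IsOpen (cl K : Set (Hat G)) :=
  (cl K).isOpen_of_isClosed_of_finiteIndex (cl_closed K)

theorem assemble {D J W : Type} [Group D] [TopologicalSpace D] [Countable J] [Nonempty J]
    [Group W] [Finite W] (ψ : J → D →* ZHat) (π : J → D →* W)
    (h1 : ∀ j, Group.IsNilpotent (π j).range) (h2 : ∀ j, Continuous (ψ j))
    (h3 : ∀ j, IsLocallyConstant (π j)) (h4 : ∀ x, (∀ j, ψ j x = 1) → (∀ j, π j x = 1) → x = 1) :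
    ∃ (Q : Type) (_ : Group Q) (_ : Finite Q), Group.IsNilpotent Q ∧ ∃ f : D →* (ℕ → ZHat × Q),
      (∀ n, Continuous fun x => (f x n).1) ∧ (∀ n, IsLocallyConstant fun x => (f x n).2) ∧
        Function.Injective f := by
  classical
  let T := {E : Subgroup W // Group.IsNilpotent E}
  have : ∀ E : T, Group.IsNilpotent E.1 := fun E => E.2
  obtain ⟨en, hen⟩ := exists_surjective_nat J
  let s : ∀ j, (π j).range →* ∀ E : T, E.1 := fun j =>
    MonoidHom.mulSingle (fun E : T => E.1) ⟨_, h1 j⟩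
  refine ⟨∀ E : T, E.1, inferInstance, inferInstance, inferInstance,
    MonoidHom.pi fun n => (ψ (en n)).prod ((s (en n)).comp (π (en n)).rangeRestrict),
    fun n => h2 _, fun n => (IsLocallyConstant.desc (π (en n)).rangeRestrict Subtype.val (h3 _)
      Subtype.val_injective).comp (s (en n)), (injective_iff_map_eq_one _).2 fun x hx =>
    h4 x (hen.forall.2 fun n => congrArg Prod.fst (congrFun hx n)) (hen.forall.2 fun n => ?_)⟩
  exact congrArg Subtype.val ((Pi.mulSingle_eq_one_iff (M := fun E : T => E.1)).1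
    (congrArg Prod.snd (congrFun hx n)))

namespace Md

/-- `K` contains a copy of itself below each vertex -/
structure Br (M : Md G X S) (K : Subgroup G) : Prop where
  le : ∀ v, K ≤ M.R v
  lc : ∀ v, ∀ k ∈ K, M.lc v k ∈ K

variable {M : Md G X S} {K : Subgroup G}

theorem Br.of_letter (h : ∀ x, ∀ k ∈ K, ∃ m ∈ K, M.j m = loc [x] (M.j k)) : M.Br K := by
  have h1 : ∀ v, ∀ k ∈ K, ∃ m ∈ K, M.j m = loc v (M.j k) := by
    intro v
    induction v with
    | nil => exact fun k hk => ⟨k, hk, (loc_nil _).symm⟩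
    | cons x v ih =>
      intro k hk
      obtain ⟨m, hm, e⟩ := h x k hk
      rw [loc_cons, ← e]
      exact ih m hm
  refine ⟨fun v k hk => (h1 v k hk).imp fun _ h => h.2, fun v k hk => ?_⟩
  obtain ⟨m, hm, e⟩ := h1 v k hk
  rwa [M.inj ((j_lc ⟨m, e⟩).trans e.symm)]

theorem Br.comm (h : M.Br K) : M.Br ⁅K, K⁆ := by
  refine ⟨fun v => K.commutator_le_self.trans (h.le v), fun v k hk => ?_⟩
  have : ⁅K, K⁆ ≤ (⁅K, K⁆.comap (lcH (h.le v))).map K.subtype := commutator_le.2 fun a ha b hb =>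
    ⟨⁅(⟨a, ha⟩ : K), ⟨b, hb⟩⁆, by
      change lcH (h.le v) _ ∈ ⁅K, K⁆
      rw [map_commutatorElement]
      exact commutator_mem_commutator (h.lc v a ha) (h.lc v b hb), rfl⟩
  obtain ⟨a, ha, rfl⟩ := this hk
  exact ha

variable [K.FiniteIndex]

theorem Br.exists_loc (h : M.Br K) (v : List X) {x : M.C} (hx : x.1 ∈ cl K) :
    ∃ y : M.C, y.1 ∈ cl K ∧ M.σC v y = x ∧
      ∀ u : List X, u.length = v.length → u ≠ v → M.σC u y = 1 := by
  obtain ⟨t, h1, h2, -⟩ := ext_hom (lcH (h.le v))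
  have h3 : ∀ k ∈ K, t (et k) = et (M.lc v k) := fun k hk => h2 ⟨k, hk⟩
  refine ⟨⟨t x, mem_C.2 fun m => ?_⟩, ?_, Subtype.ext ?_, fun u hu hne => Subtype.ext ?_⟩
  · exact cl_ind (p := fun x => t x ∈ cl (M.St m)) ((cl_closed _).preimage h1)
      (fun g hg => by
        rw [h3 g hg.2]
        exact et_cl (St_anti (Nat.le_add_left _ _) (lc_St (h.le v hg.2) hg.1)))
      (cl_inf (mem_C.1 x.2 m) hx)
  · exact cl_ind (p := fun x => t x ∈ cl K) ((cl_closed _).preimage h1)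
      (fun g hg => by rw [h3 g hg]; exact et_cl (h.lc v g hg)) hx
  · exact cl_ind (p := fun x => M.σ v (t x) = x) (isClosed_eq (by fun_prop) (by fun_prop))
      (fun g hg => by rw [h3 g hg, σ_et, sc_lc (h.le v hg)]) hx
  · exact cl_ind (p := fun x => M.σ u (t x) = 1) (isClosed_eq (by fun_prop) (by fun_prop))
      (fun g hg => by rw [h3 g hg, σ_et, sc_lc_ne (h.le v hg) hu hne, map_one]) hx

theorem σC_σC (x : M.C) (u w : List X) : M.σC w (M.σC u x) = M.σC (w ++ u) x :=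
  Subtype.ext (σ_σ _ u w)

theorem σC_conj (a : G) (x : M.C) (u : List X) : M.σC (M.j a • u) (MulAut.conjNormal (et a) x) =
    MulAut.conjNormal (et (M.sc a u)) (M.σC u x) := Subtype.ext (σ_conj a x.2 u)

/-- the sections of the part of the kernel in the closure of `K` -/
noncomputable def Hs (M : Md G X S) (K : Subgroup G) (v : List X) : Subgroup M.C :=
  ((cl K).subgroupOf M.C).map (M.σC v)

theorem Br.le_Hs (h : M.Br K) (v : List X) : (cl K).subgroupOf M.C ≤ M.Hs K v := fun _ hx =>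
  (h.exists_loc v hx).imp fun _ hy => ⟨hy.1, hy.2.1⟩

theorem Br.Hs_le (h : M.Br K) (w u : List X) : M.Hs K w ≤ M.Hs K (w ++ u) := by
  rintro _ ⟨x, hx, rfl⟩
  obtain ⟨y, h1, rfl⟩ := h.le_Hs u hx
  exact ⟨y, h1, (σC_σC y u w).symm⟩

variable [hK : K.Normal]

theorem Br.stab (h : M.Br K) :
    ∃ n, ∀ w u : List X, w.length = n → M.Hs K (w ++ u) = M.Hs K w := by
  have fi : ∀ v, (M.Hs K v).FiniteIndex := fun v => finiteIndex_of_le (h.le_Hs v)
  obtain ⟨w0, h0⟩ : ∃ w0, ∀ w, (M.Hs K w0).index ≤ (M.Hs K w).index :=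
    ⟨_, fun w => Function.argmin_le (fun v => (M.Hs K v).index) w⟩
  refine ⟨w0.length, fun w u hw => ?_⟩
  by_contra hne
  obtain ⟨a, rfl⟩ := M.trans w0 w hw.symm
  let e : M.C ≃* M.C := MulAut.conjNormal (et (M.sc a w0))
  have h1 : (M.Hs K w0).map (e : M.C →* M.C) ≤ M.Hs K (M.j a • w0) := by
    rintro _ ⟨_, ⟨x, hx, rfl⟩, rfl⟩
    exact ⟨MulAut.conjNormal (et a) x, (cl_normal K).conj_mem _ hx (et a), σC_conj a x w0⟩
  have h2 := index_map_equiv (M.Hs K w0) e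
  have : ((M.Hs K w0).map (e : M.C →* M.C)).FiniteIndex := ⟨h2.trans_ne (fi w0).1⟩
  exact (h0 _).not_gt ((index_strictAnti ((h.Hs_le _ u).lt_of_ne' hne)).trans_le
    ((index_antitone h1).trans_eq h2))

variable [FaithfulSMul S X] [Nontrivial X]

theorem Br.deep (h : M.Br K) : ∃ n, ∀ u : List X, u.length = n → ∀ x : M.C, x.1 ∈ cl K →
    ∃ y : M.C, y.1 ∈ cl ⁅K, K⁆ ∧ M.σC u y = x := by
  obtain ⟨n, hn⟩ := M.exists_level K
  refine ⟨n, fun u hu x hx => ?_⟩
  obtain ⟨k, hk, hu'⟩ := hn u hu.ge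
  obtain ⟨y, h1, h2, h3⟩ := h.exists_loc u hx
  refine ⟨y * (MulAut.conjNormal (et k⁻¹) y)⁻¹, ?_, ?_⟩
  · have := comm_cl h1 (et_cl (inv_mem hk))
    simpa [commutatorElement_def, mul_assoc] using this
  · have h4 := σC_conj k⁻¹ y (M.j k • u)
    rw [map_inv M.j, inv_smul_smul, h3 _ (len _ _) hu', map_one] at h4
    rw [map_mul, map_inv, h2, h4, inv_one, mul_one]

theorem Br.nil (h : M.Br K) {W : Type} [Group W] (f : M.C →* W)
    (hf : ∀ x : M.C, x.1 ∈ cl ⁅K, K⁆ → f x = 1) (v : List X) :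
    Group.IsNilpotent ((M.Hs K v).map f) := by
  obtain ⟨n, hn⟩ := h.stab
  obtain ⟨m, hm⟩ := h.deep
  refine nil_of_subdirect f _ (fun y : {y : List X // y.length = m + n} => (M.σC y.1).ker) ?_ ?_
  · rintro ⟨y, hy⟩ _ ⟨_, ⟨x, hx, rfl⟩, rfl⟩
    obtain ⟨w, u, hu, rfl⟩ := exists_split (n := m) (v := y) (by omega)
    have hw : w.length = n := by simp at hy; omega
    have h1 : M.σC (w ++ (u ++ v)) x ∈ M.Hs K w := hn w _ hw ▸ ⟨x, hx, rfl⟩
    obtain ⟨z, hz, e⟩ := h1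
    obtain ⟨d, hd, rfl⟩ := hm u hu z hz
    refine ⟨d⁻¹ * M.σC v x, ⟨(M.Hs K v).mul_mem ((M.Hs K v).inv_mem
      (h.le_Hs v (cl_mono K.commutator_le_self hd))) ⟨x, hx, rfl⟩, ?_⟩, by rw [map_mul, map_inv, hf d hd, inv_one, one_mul]⟩
    change M.σC (w ++ u) _ = 1
    rw [map_mul, map_inv, σC_σC x, List.append_assoc, ← e, σC_σC, inv_mul_cancel]
  · refine fun x _ hx => hf x (cl_mono bot_le (mem_cl_sup fun N => ?_))
    rw [bot_sup_eq]
    refine mem_cl_of_sec (H := ⊥) (K := K) (n := m + n)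
      bot_le (fun u _ => ⟨h.le u, fun k hk => ?_⟩) (mem_C.1 x.2 _) fun u hu => ?_
    · rw [mem_bot.1 hk]
      exact (show M.lc u 1 = 1 from map_one (lcH (h.le u))).symm ▸ one_mem N.toSubgroup
    · exact (show M.σ u x = 1 from congrArg Subtype.val (hx ⟨u, hu⟩)).symm ▸ one_mem (cl ⊥)

/-- an element of the kernel with all sections in the closure of a small subgroup is trivial -/
theorem Br.eq_one (h : M.Br K) {x : Hat G} (hx : x ∈ M.C) (h1 : ∀ v, M.σ v x ∈ cl ⁅K, K⁆) :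
    x = 1 := eq_one_of_cl fun N => by
  obtain ⟨n, hn⟩ := M.exists_level N.toSubgroup
  refine mem_cl_of_sec K.commutator_le_self (fun v hv => ⟨h.le v, fun k hk => ?_⟩) (mem_C.1 hx n)
    fun v _ => h1 v
  obtain ⟨g, hg, h2⟩ := hn v hv.ge
  exact lc_comm (h.le v) hg h2 hk

theorem Br.nec [Group.FG G] (h : M.Br K) : ∃ (Q : Type) (_ : Group Q) (_ : Finite Q),
    Group.IsNilpotent Q ∧ ∃ f : (cl K).subgroupOf M.C →* (ℕ → ZHat × Q),
      (∀ n, Continuous fun x => (f x n).1) ∧ (∀ n, IsLocallyConstant fun x => (f x n).2) ∧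
        Function.Injective f := by
  classical
  obtain ⟨A, _, _, ι, _, l, a1, a2, a3⟩ := exists_coord K
  choose t t1 t2 t3 using fun i => ext_hom (l i)
  have t0 : ∀ i, ∀ x ∈ cl ⁅K, K⁆, t i x = 1 := fun i x hx =>
    cl_ind (p := fun x => t i x = 1) (isClosed_eq (t1 i) continuous_const) (fun g hg => by
      rw [← map_subtype_commutator] at hg
      obtain ⟨k, hk, rfl⟩ := hg
      rw [Subgroup.subtype_apply, t2, Abelianization.commutator_subset_ker (l i) hk, map_one]) hx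
  have tf : ∀ x ∈ cl A, (∀ i, t i x = 1) → x ∈ cl ⁅K, K⁆ := fun x hx h0 => mem_cl.2 fun N => by
    have : NeZero N.toSubgroup.index := ⟨FiniteIndex.index_ne_zero⟩
    obtain ⟨a, ha, e⟩ := approx hx ((pj_lc N).prodMk
      (lc_pi fun i => (pj_lc (mul_FN N.toSubgroup.index)).comp_continuous (t1 i)))
    obtain ⟨e1, e2⟩ := Prod.mk.inj e
    obtain ⟨b, hb⟩ := a3 N.toSubgroup.index ⟨a, a2 ha⟩ ha fun i => by
      have := congrFun e2 i
      rw [Function.comp_apply, Function.comp_apply, h0, map_one, t2 i ⟨a, a2 ha⟩, pj_et,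
        QuotientGroup.eq_one_iff] at this
      exact mem_mul_FN.1 this
    refine ⟨_, hb, ?_⟩
    rw [← e1, pj_et, QuotientGroup.mk_mul, (QuotientGroup.eq_one_iff _).2
      (inv_mem (pow_index_mem N b)), mul_one]
  have tp : ∀ i, ∀ x ∈ cl K, ∀ k : ℕ, t i (x ^ k) = t i x ^ k := fun i x hx k => by
    induction k with
    | zero => rw [pow_zero, pow_zero, t0 i 1 (one_mem _)]
    | succ k ih => rw [pow_succ, t3 i _ (pow_mem hx k) _ hx, ih, pow_succ]
  have tf' : ∀ x ∈ cl A, ∀ k : ℕ, k ≠ 0 → x ^ k ∈ cl ⁅K, K⁆ → x ∈ cl ⁅K, K⁆ := fun x hx k hk h0 =>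
    tf x hx fun i => zhat_tf hk ((tp i x (cl_mono a2 hx) k).symm.trans (t0 i _ h0))
  let q : M.C →* Hat G ⧸ cl ⁅K, K⁆ := (QuotientGroup.mk' _).comp M.C.subtype
  have q1 : ∀ x : M.C, q x = 1 ↔ x.1 ∈ cl ⁅K, K⁆ := fun x => QuotientGroup.eq_one_iff _
  have pw : ∀ v, ∃ e : ℕ, e ≠ 0 ∧ (∀ x ∈ M.Hs K v, x.1 ^ e ∈ cl A) ∧ ∀ x ∈ M.Hs K v,
      ∀ y ∈ M.Hs K v, ∃ k ∈ cl ⁅K, K⁆, (x.1 * y.1) ^ e = x.1 ^ e * y.1 ^ e * k := fun v => by
    have := h.nil q (fun x => (q1 x).2) v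
    have : ((cl A).map (QuotientGroup.mk' (cl ⁅K, K⁆))).Normal :=
      (cl_normal A).map _ (QuotientGroup.mk'_surjective _)
    have : ((cl A).map (QuotientGroup.mk' (cl ⁅K, K⁆))).FiniteIndex := ⟨ne_zero_of_dvd_ne_zero
      FiniteIndex.index_ne_zero (index_map_dvd _ (QuotientGroup.mk'_surjective _))⟩
    obtain ⟨e, e0, e1, e2⟩ := pow_hom_of_nil
      (((cl A).map (QuotientGroup.mk' (cl ⁅K, K⁆))).subgroupOf ((M.Hs K v).map q))
      (by
        rintro ⟨_, _⟩ ⟨a, ha, rfl⟩ ⟨_, _⟩ ⟨b, hb, rfl⟩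
        refine Subtype.ext (commutatorElement_eq_one_iff_mul_comm.1 ?_)
        exact (map_commutatorElement (QuotientGroup.mk' _) a b).symm.trans
          ((QuotientGroup.eq_one_iff _).2 (comm_cl (cl_mono a2 ha) (cl_mono a2 hb))))
      (by
        rintro ⟨_, _⟩ ⟨a, ha, rfl⟩ k hk h0
        exact Subtype.ext ((QuotientGroup.eq_one_iff _).2 (tf' a ha k hk
          ((QuotientGroup.eq_one_iff _).1 (congrArg Subtype.val h0)))))
    refine ⟨e, e0, fun x hx => ?_, fun x hx y hy => ⟨_, QuotientGroup.eq.1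
      (congrArg Subtype.val (e2 ⟨_, x, hx, rfl⟩ ⟨_, y, hy, rfl⟩)).symm,
        (mul_inv_cancel_left _ _).symm⟩⟩
    obtain ⟨a, ha, h0⟩ := e1 ⟨_, x, hx, rfl⟩
    exact ((cl A).mul_mem_cancel_left (inv_mem ha)).1 (cl_mono a1 (QuotientGroup.eq.1 h0))
  choose e e0 e1 e2 using pw
  let A' : FN G := .ofSubgroup A
  let r : M.C →* G ⧸ A := (pj A').comp M.C.subtype
  let ψ : List X → Option ι → (cl K).subgroupOf M.C →* ZHat := fun v i => i.elim 1 fun i =>
    MonoidHom.mk' (fun x => t i (M.σ v x.1.1 ^ e v)) fun x y => by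
      obtain ⟨k, hk, h0⟩ := e2 v _ ⟨x, x.2, rfl⟩ _ ⟨y, y.2, rfl⟩
      have b1 := cl_mono a2 (e1 v _ ⟨x, x.2, rfl⟩)
      have b2 := cl_mono a2 (e1 v _ ⟨y, y.2, rfl⟩)
      change t i (M.σ v (x.1.1 * y.1.1) ^ e v) = _
      rw [σ_mul _ (mem_C.1 y.1.2 _) le_rfl]
      refine (congrArg (t i) h0).trans ?_
      rw [t3 i _ (mul_mem b1 b2) _ (cl_mono K.commutator_le_self hk), t0 i k hk, mul_one,
        t3 i _ b1 _ b2]
      rfl
  have cs : ∀ v, Continuous fun x : (cl K).subgroupOf M.C => M.σ v x.1.1 := fun v => by fun_prop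
  refine assemble (J := List X × Option ι) (fun j => ψ j.1 j.2)
    (fun j => (r.comp (M.σC j.1)).comp (Subgroup.subtype _)) (fun j => ?_) ?_
    (fun j => (pj_lc A').comp_continuous (cs _)) fun x h1 h2 => ?_
  · rw [MonoidHom.range_comp, range_subtype, ← map_map]
    exact h.nil r (fun x hx => pj_eq_one.2 (cl_mono a1 hx)) j.1
  · rintro ⟨v, _ | i⟩
    · exact continuous_const
    · exact (t1 i).comp ((cs _).pow _)
  · refine Subtype.ext (Subtype.ext (h.eq_one x.1.2 fun v => ?_))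
    have b1 : pj A' (M.σ v x.1.1) = 1 := h2 (v, none)
    have b2 : ∀ i, t i (M.σ v x.1.1 ^ e v) = 1 := fun i => h1 (v, some i)
    have b3 : M.σ v x.1.1 ^ e v ∈ cl A := e1 v _ ⟨x, x.2, rfl⟩
    exact tf' (M.σ v x.1.1) ((pj_eq_one (N := A')).1 b1) (e v) (e0 v) (tf _ b3 b2)

end Md

end Pool.Agent.P.MP_042d8e_al.CK
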