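import Pool.Agent.P.MP_042d8e_al.CK.Gen

/-! Directed elements, adding machines and the relation between labels. -/

set_option autoImplicit false
set_option linter.unusedSectionVars false

open scoped commutatorElement

namespace Pool.Agent.P.MP_042d8e_al.CK

open Po Subgroup SemidirectProduct

variable {X S F I : Type} [Group S] [MulAction S X] [Group F]

instance Ret.commKer (D : Ret F) : CommGroup D.ρ.ker :=
  { (inferInstance : Group D.ρ.ker) with mul_comm := fun a b => Subtype.ext (D.comm _ _ a.2 b.2) }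

/-- the component in the kernel -/
def Ret.al (D : Ret F) (q : F) : D.ρ.ker := ⟨q * (D.ρ q)⁻¹, by simp [D.idem]⟩

theorem Ret.al_mul (D : Ret F) (q q' : F) :
    D.al (q * q') = D.al q * MulAut.conjNormal (D.ρ q) (D.al q') :=
  Subtype.ext (by simp [Ret.al, mul_assoc])

@[simp] theorem Ret.al_one (D : Ret F) : D.al 1 = 1 := Subtype.ext (by simp [Ret.al])

namespace Dt

variable [Fintype X] (T : Dt X S F I)

/-- the labels of the children determine the label of the parent -/
structure Rel (f : X → Lam T.π Zm) (l : Lam T.π Zm) : Prop where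
  ρ : ∀ x, T.D.ρ (f x).right = T.D.ρ (T.ϑ l.right)
  α : ∏ x, T.D.al (f x).right = T.D.al (T.ϑ l.right)
  left : ∏ x, (f x).left = l.left

theorem Rel.mul {T : Dt X S F I} {f f' : X → Lam T.π Zm} {l l' : Lam T.π Zm} (h : T.Rel f l)
    (h' : T.Rel f' l') (s : S) : T.Rel (fun x => f (s • x) * f' x) (l * l') := by
  refine ⟨fun x => by simp [h.ρ, h'.ρ], ?_, ?_⟩
  · simp only [mul_right, Ret.al_mul, Finset.prod_mul_distrib, h.ρ, ← map_prod, h'.α, map_mul,
      ← h.α]
    exact congrArg (· * _) (Equiv.prod_comp (MulAction.toPerm s) fun x => T.D.al (f x).right)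
  · have : ∀ x, T.π (f x).right = T.π l.right := fun x => by rw [← T.πρ, h.ρ, T.πρ, T.πϑ]
    simp only [mul_left, MonoidHom.comp_apply, this, Finset.prod_mul_distrib, ← map_prod, h'.left,
      ← h.left]
    exact congrArg (· * _) (Equiv.prod_comp (MulAction.toPerm s) fun x => (f x).left)

theorem Rel.triv {T : Dt X S F I} {l : Lam T.π Zm} (h : T.Rel (fun _ => 1) l) : l = 1 := by
  have h1 := h.ρ T.o
  have h2 := congrArg Subtype.val h.α
  simp only [one_right, map_one, Ret.al_one, Finset.prod_const_one] at h1 h2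
  simp only [Ret.al, ← h1] at h2
  exact SemidirectProduct.ext (by simpa using h.left.symm) (by simpa using h2.symm)

theorem rel_const (q : F) : T.Rel (fun _ => inr (T.ϑ q)) (inr q) := by
  refine ⟨fun _ => rfl, Subtype.ext ?_, by simp⟩
  rw [Finset.prod_const, Finset.card_univ, ← Nat.card_eq_fintype_card]
  exact T.card _ (T.D.al _).2

theorem rel_one : T.Rel (fun _ => 1) 1 := by simpa using T.rel_const 1

open Classical in
theorem rel_single (a : I → Zm) (y : X) :
    T.Rel (fun x => if x = y then inl a else 1) (inl a) := by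
  refine ⟨fun x => by split_ifs <;> simp, ?_, ?_⟩
  · rw [Finset.prod_eq_one fun x _ => by split_ifs <;> simp]; simp
  · rw [Fintype.prod_eq_single y fun x hx => by simp [hx]]; simp

/-- the shape of the decorations -/
def Cf (d : Po X S) : Prop := (∀ x ∉ T.O, d [] • x = x) ∧ ∃ f : X → S × F,
  (∀ x, sec d [x] = T.C (f x)) ∧ (∀ x ∉ T.O, f x = 1) ∧ T.Rel (fun x => inr (f x).2) 1

variable {T}

theorem D_Cf {d : Po X S} (hd : d ∈ T.DD) : T.Cf d := by
  classical
  refine D_ind (fun s hs => ⟨T.S1_fix s hs, 1, by simp, fun _ _ => rfl, by simpa using T.rel_one⟩)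
    (fun β => ?_) (fun α hα => ?_) ?_ hd
  · refine ⟨fun x _ => by rw [loc_nil1, one_smul], fun x => if x = T.a then (β, 1) else 1,
      fun x => ?_, fun x hx => if_neg fun h : x = T.a => hx (h ▸ T.aO), ?_⟩
    · rw [sec_loc1]; beta_reduce; split_ifs <;> simp [rt_def]
    · convert T.rel_one using 2 with x; beta_reduce; split_ifs <;> simp
  · refine ⟨fun x _ => by rw [hh, mul_app, loc_nil1, smul_nil, loc_nil1, mul_one, one_smul],
      fun x => if x = T.c then (T.t α, α) else if x = T.b then (T.t α⁻¹, α⁻¹) else 1,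
      fun x => ?_, fun x hx => ?_, fun x => ?_, ?_, by simp⟩
    · rw [hh, sec1, loc_nil1, one_smul, sec_loc1, sec_loc1]
      beta_reduce
      split_ifs with h1 h2
      · exact absurd (h2.symm.trans h1) T.bc
      all_goals simp [← cq_def, -map_inv]
    · exact (if_neg fun h : x = T.c => hx (h ▸ T.cO)).trans
        (if_neg fun h : x = T.b => hx (h ▸ T.bO))
    · beta_reduce; split_ifs <;> simp [hα]
    · rw [Fintype.prod_eq_mul T.c T.b T.bc.symm fun x hx => by simp [hx.1, hx.2]]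
      exact Subtype.ext (by simp [T.bc, Ret.al, hα])
  · rintro g h ⟨a1, f, a2, a3, a4⟩ ⟨b1, f', b2, b3, b4⟩
    refine ⟨fun x hx => by rw [mul_app, smul_nil, mul_smul, b1 x hx, a1 x hx],
      fun x => f (h [] • x) * f' x, fun x => by rw [sec1, a2, b2, map_mul],
      fun x hx => by beta_reduce; rw [b1 x hx, a3 x hx, b3 x hx, mul_one], ?_⟩
    simpa using a4.mul b4 (h [])

instance [Finite S] [Finite F] : Finite T.DD := by
  choose f hf _ using fun d : T.DD => (D_Cf d.2).2
  exact .of_injective (fun d : T.DD => (d.1 [], f d)) fun a b h => Subtype.ext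
    (ext1 (Prod.mk.inj h).1 fun x => by rw [hf, hf, (Prod.mk.inj h).2])

theorem D_o {d : Po X S} (hd : d ∈ T.DD) : sec d [T.o] = 1 := by
  obtain ⟨-, f, h1, h2, -⟩ := D_Cf hd
  rw [h1, h2 _ T.oO, map_one]

theorem D_comm {d : Po X S} (hd : d ∈ T.DD) (k : Po X S) : Commute d (loc [T.o] k) := by
  refine mul_inv_eq_iff_eq_mul.1 ?_
  rw [conj_loc, D_o hd, smul_cons, (D_Cf hd).1 _ T.oO]
  simp

variable (T)

/-- periodic sequences of decorations -/
abbrev Z : Type := MulAut F → T.DD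

/-- the shift -/
def sh (z : T.Z) : T.Z := fun α => z (α * T.ϑ)

theorem exists_R : ∃ R : T.Z →* Po X S, ∀ z, R z = z 1 * loc [T.o] (R (T.sh z)) := by
  obtain ⟨R, h⟩ := exists_sol (fun z : T.Z => (z 1 : Po X S)) (fun _ => T.o) T.sh
    fun z => D_o (z 1).2
  refine ⟨MonoidHom.mk' R fun a b => uniq (fun p : T.Z × T.Z => ((p.1 * p.2) 1 : Po X S))
    (fun _ => T.o) (fun p => (T.sh p.1, T.sh p.2)) (A := fun p => R (p.1 * p.2))
    (B := fun p => R p.1 * R p.2) (fun p => h _) (fun p => ?_) (a, b), h⟩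
  rw [h p.1, h p.2, mul_assoc, ← mul_assoc (loc _ _), ← (D_comm (p.2 1).2 _).eq, map_mul]
  simp only [mul_assoc, Pi.mul_apply, coe_mul]

/-- the directed elements -/
noncomputable def R : T.Z →* Po X S := T.exists_R.choose

theorem R_eq (z : T.Z) : T.R z = z 1 * loc [T.o] (T.R (T.sh z)) := T.exists_R.choose_spec z

theorem R_nil (z : T.Z) : T.R z [] = (z 1).1 [] := by
  rw [R_eq, mul_app, loc_nil1, mul_one, smul_nil]

open Classical in
theorem sec_R (z : T.Z) (x : X) :
    sec (T.R z) [x] = if x = T.o then T.R (T.sh z) else sec (z 1).1 [x] := by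
  rw [R_eq, sec1, loc_nil1, one_smul, sec_loc1]
  split_ifs with h
  · rw [h, D_o (z 1).2, one_mul]
  · rw [mul_one]

theorem R_conj (z : T.Z) {m : Po X S} (hm : m ∈ T.DD) :
    T.R z * m * (T.R z)⁻¹ = z 1 * m * (z 1).1⁻¹ := by
  rw [R_eq, mul_assoc (z 1).1, ← (D_comm hm _).eq]; group

theorem exists_ω : ∃ ω : I → Po X S, ∀ i, ω i = T.rt (T.σ i) * loc [T.y i] (ω i) :=
  exists_sol _ _ id fun _ => T.sec_rt _ _

/-- the adding machines -/
noncomputable def ω : I → Po X S := T.exists_ω.choose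

theorem ω_eq (i : I) : T.ω i = T.rt (T.σ i) * loc [T.y i] (T.ω i) := T.exists_ω.choose_spec i

theorem ω_nil (i : I) : T.ω i [] = T.σ i := by
  rw [ω_eq, mul_app, loc_nil1, mul_one, smul_nil, rt_nil]

open Classical in
theorem sec_ω (i : I) (x : X) : sec (T.ω i) [x] = if x = T.y i then T.ω i else 1 := by
  conv_lhs => rw [ω_eq, sec1, sec_rt, one_mul, sec_loc1]

theorem ω_comm {i j : I} (h : i ≠ j) : Commute (T.ω i) (T.ω j) := by
  have h1 : ∀ {i j}, i ≠ j → ∀ k, Commute (T.rt (T.σ i)) (loc [T.y j] k) := fun h k =>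
    mul_inv_eq_iff_eq_mul.1 (by rw [rt_loc, T.σ_fix _ _ h])
  rw [ω_eq, T.ω_eq j]
  exact (((T.σ_comm i j).map _).mul_right (h1 h _)).mul_left
    ((h1 h.symm _).symm.mul_right (loc_comm1 (T.y_inj.ne h) _ _))

theorem cq_ω (q : F) (i : I) : T.cq q * T.ω i * (T.cq q)⁻¹ = T.ω (T.π q i) := by
  refine uniq (fun p : F × I => T.rt (T.σ (T.π p.1 p.2))) (fun p => T.y (T.π p.1 p.2))
    (fun p => (T.ϑ p.1, p.2)) (A := fun p => T.cq p.1 * T.ω p.2 * (T.cq p.1)⁻¹)
    (B := fun p => T.ω (T.π p.1 p.2)) (fun p => ?_) (fun p => ?_) (q, i)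
  · conv_lhs => rw [ω_eq, ← conj_mul, cq_rt, cq_loc, T.t_σ, T.t_y]
  · rw [πϑ]; exact T.ω_eq _

variable [FaithfulSMul S X]

/-- conjugation of a sequence -/
def cj (q : F) (z : T.Z) : T.Z := fun α => ⟨_, cq_D (α q) (z α).2⟩

theorem cq_R (q : F) (z : T.Z) : T.cq q * T.R z * (T.cq q)⁻¹ = T.R (T.cj q z) := by
  refine uniq (fun p : F × T.Z => (T.cj p.1 p.2 1 : Po X S)) (fun _ => T.o)
    (fun p => (T.ϑ p.1, T.sh p.2)) (A := fun p => T.cq p.1 * T.R p.2 * (T.cq p.1)⁻¹)
    (B := fun p => T.R (T.cj p.1 p.2)) (fun p => ?_) (fun p => T.R_eq _) (q, z)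
  conv_lhs => rw [R_eq, ← conj_mul, cq_loc, T.t_o]
  rfl

variable [Fintype I]

/-- the free abelian group of the adding machines -/
noncomputable def Ω : (I → Zm) →* Po X S :=
  MonoidHom.noncommPiCoprod (fun i => zpowersHom _ (T.ω i)) fun _ _ h _ _ =>
    (T.ω_comm h).zpow_zpow _ _

theorem Ω_ee (i : I) : T.Ω (ee i) = T.ω i := by
  let := Classical.propDecidable
  exact (MonoidHom.noncommPiCoprod_mulSingle (fun i => zpowersHom _ (T.ω i)) i _).trans (zpow_one _)

theorem aut_ee (p : Equiv.Perm I) (i : I) :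
    mulAutArrow (G := Equiv.Perm I) (M := Zm) p (ee i) = ee (p i) := funext fun j => by
  classical
  change ee i (p⁻¹ j) = _
  simp [ee, Pi.mulSingle_apply, Equiv.symm_apply_eq]

/-- the section of the labelling -/
noncomputable def W : Lam T.π Zm →* Po X S := lift T.Ω T.cq fun q => MonoidHom.ext fun a =>
  zi_ind (H := MonoidHom.eqLocus _ _) (fun i => by
    change T.Ω (mulAutArrow (G := Equiv.Perm I) (M := Zm) (T.π q) (ee i)) =
      T.cq q * T.Ω (ee i) * (T.cq q)⁻¹
    rw [aut_ee, Ω_ee, Ω_ee, cq_ω]) a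

theorem W_inl (a : I → Zm) : T.W (inl a) = T.Ω a := lift_inl _ _ _ _
theorem W_inr (q : F) : T.W (inr q) = T.cq q := lift_inr _ _ _ _

end Dt

end Pool.Agent.P.MP_042d8e_al.CK
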