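import Mathlib

/-! Finite nilpotent groups inside groups with a retraction that has an abelian kernel. -/

set_option autoImplicit false

namespace Pool.Agent.P.MP_042d8e_al.CK

/-- a retraction with abelian kernel and an automorphism -/
structure Ret (F : Type) [Group F] where
  ρ : F →* F
  θ : F ≃* F
  idem : ∀ a, ρ (ρ a) = ρ a
  comm : ∀ a b, ρ a = 1 → ρ b = 1 → a * b = b * a

/-- one step towards the root -/
def Ret.τ {F : Type} [Group F] (D : Ret F) : F →* F := D.θ.toMonoidHom.comp D.ρ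

/-- the group dies after finitely many steps -/
def Emb (Q : Type) [Group Q] : Prop :=
  ∃ (F : Type) (_ : Group F) (_ : Finite F) (D : Ret F) (n : ℕ) (e : Q →* F),
    Function.Injective e ∧ ∀ u, D.τ^[n] (e u) = 1

theorem Emb.of_inj {Q Q' : Type} [Group Q] [Group Q'] (h : Emb Q') (f : Q →* Q')
    (hf : Function.Injective f) : Emb Q := by
  obtain ⟨F, _, _, D, n, e, h1, h2⟩ := h
  exact ⟨F, _, ‹_›, D, n, e.comp f, h1.comp hf, fun u => h2 _⟩

theorem iter_one {F : Type} [Group F] (f : F →* F) {a : F} {n m : ℕ} (h : f^[n] a = 1)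
    (hm : n ≤ m) : f^[m] a = 1 := by
  obtain ⟨k, rfl⟩ := Nat.exists_eq_add_of_le' hm
  rw [Function.iterate_add_apply, h, iterate_map_one]

/-- the product of a family of retractions -/
def Ret.pi {ι : Type} {F : ι → Type} [∀ i, Group (F i)] (D : ∀ i, Ret (F i)) : Ret (∀ i, F i) where
  ρ := MonoidHom.pi fun i => (D i).ρ.comp (Pi.evalMonoidHom F i)
  θ := MulEquiv.piCongrRight fun i => (D i).θ
  idem _ := funext fun i => (D i).idem _
  comm _ _ ha hb := funext fun i => (D i).comm _ _ (congrFun ha i) (congrFun hb i)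

theorem Emb.pi {ι : Type} [Finite ι] {Q : ι → Type} [∀ i, Group (Q i)] (h : ∀ i, Emb (Q i)) :
    Emb (∀ i, Q i) := by
  choose F _ _ D n e h1 h2 using h
  obtain ⟨N, hN⟩ := (Set.finite_range n).bddAbove
  have key : ∀ (k : ℕ) (a : ∀ i, F i) (i : ι), (Ret.pi D).τ^[k] a i = (D i).τ^[k] (a i) := by
    intro k
    induction k with
    | zero => exact fun _ _ => rfl
    | succ k ih => exact fun a i => ih _ i
  exact ⟨∀ i, F i, inferInstance, inferInstance, Ret.pi D, N,
    MonoidHom.pi fun i => (e i).comp (Pi.evalMonoidHom Q i),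
    fun a b hab => funext fun i => h1 i (congrFun hab i),
    fun u => funext fun i => (key N _ i).trans (iter_one _ (h2 i _) (hN ⟨i, rfl⟩))⟩

section Lin

variable {k V : Type} [Field k] [AddCommGroup V] [Module k V]

/-- endomorphisms that act trivially on the quotients of a flag -/
def Uni (W : ℕ → Submodule k V) : Submonoid (Module.End k V) where
  carrier := {m | (∀ i, ∀ v ∈ W i, m v ∈ W i) ∧ ∀ i, ∀ v ∈ W (i + 1), m v - v ∈ W i}
  one_mem' := ⟨fun _ _ h => h, fun i v _ => by simp⟩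
  mul_mem' {a b} ha hb := ⟨fun i v h => ha.1 i _ (hb.1 i v h), fun i v h => by
    simpa using add_mem (ha.2 i _ (hb.1 _ v h)) (hb.2 i v h)⟩

/-- the block diagonal part -/
def dg {W : ℕ → Submodule k V} (hW : Monotone W) {j : ℕ} {ε : Module.End k V}
    (h : LinearMap.IsProj (W j) ε) : Uni W →* Uni W where
  toFun m := ⟨m.1 - ε * m.1 + m.1 * ε, by
    have e : ∀ i, ∀ v ∈ W i, ε v ∈ W i := fun i v hv => by
      rcases le_total i j with c | c
      · rwa [h.map_id v (hW c hv)]
      · exact hW c (h.map_mem v)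
    refine ⟨fun i v hv => add_mem (sub_mem (m.2.1 i v hv) (e i _ (m.2.1 i v hv)))
      (m.2.1 i _ (e i v hv)), fun i v hv => ?_⟩
    rcases le_or_gt j i with c | c
    · have := add_mem (sub_mem (m.2.2 i v hv) (hW c (h.map_mem (m.1 v))))
        (hW c (m.2.1 j _ (h.map_mem v)))
      convert this using 1
      simp only [LinearMap.add_apply, LinearMap.sub_apply, Module.End.mul_apply]; abel
    · have c1 := hW (Nat.succ_le_of_lt c) hv
      simpa [h.map_id v c1, h.map_id _ (m.2.1 j v c1)] using m.2.2 i v hv⟩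
  map_one' := Subtype.ext (by simp)
  map_mul' a b := Subtype.ext (LinearMap.ext fun v => by
    have e1 : ∀ (m : Uni W) (w : V), ε (m.1 (ε w)) = m.1 (ε w) := fun m w =>
      h.map_id _ (m.2.1 j _ (h.map_mem w))
    have e2 : ε (a.1 (b.1 (ε v))) = a.1 (b.1 (ε v)) := e1 (a * b) v
    have e3 : ∀ w, ε (ε w) = ε w := fun w => h.map_id _ (h.map_mem w)
    simp only [Submonoid.coe_mul, LinearMap.add_apply, LinearMap.sub_apply, Module.End.mul_apply,
      map_add, map_sub, e1, e2, e3]
    abel)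

theorem dg_apply {W : ℕ → Submodule k V} (hW : Monotone W) {j : ℕ} {ε : Module.End k V}
    (h : LinearMap.IsProj (W j) ε) (m : Uni W) (v : V) :
    (dg hW h m).1 v = m.1 v - ε (m.1 v) + m.1 (ε v) := rfl

theorem emb_of_flag [Finite V] {W : ℕ → Submodule k V} (hW : Monotone W) (h0 : W 0 = ⊥) {n : ℕ}
    (hn : W (n + 1) = ⊤) : Emb (Uni W)ˣ := by
  classical
  have : Finite (Module.End k V) := Finite.of_injective _ DFunLike.coe_injective
  have h1 : ∀ j, ∃ ε : Module.End k V, LinearMap.IsProj (W j) ε := fun j => by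
    obtain ⟨U, hU⟩ := (W j).exists_isCompl
    exact ⟨(W j).subtype ∘ₗ (W j).projectionOnto U hU, fun v => Subtype.prop _,
      fun v hv => congrArg Subtype.val (Submodule.projectionOnto_apply_left hU ⟨v, hv⟩)⟩
  choose ε hε using h1
  have ext : ∀ a b : (Uni W)ˣ, (∀ v, a.1.1 v = b.1.1 v) → a = b := fun a b h =>
    Units.ext (Subtype.ext (LinearMap.ext h))
  have e1 : ∀ j (m : Uni W) (w : V), ε j (m.1 (ε j w)) = m.1 (ε j w) := fun j m w =>
    (hε j).map_id _ (m.2.1 j _ ((hε j).map_mem w))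
  have e3 : ∀ j w, ε j (ε j w) = ε j w := fun j w => (hε j).map_id _ ((hε j).map_mem w)
  let r : ℕ → (Uni W)ˣ →* (Uni W)ˣ := fun j => Units.map (dg hW (hε j))
  have r1 : ∀ j a v, (r j a).1.1 v = a.1.1 v - ε j (a.1.1 v) + a.1.1 (ε j v) := fun _ _ _ => rfl
  let D : Ret (ZMod (n + 1) → (Uni W)ˣ) :=
    { ρ := MonoidHom.pi fun j => (r j.val).comp (Pi.evalMonoidHom _ j)
      θ := MulEquiv.arrowCongr (Equiv.addRight 1) (MulEquiv.refl _)
      idem := fun a => funext fun j => ext _ _ fun v => by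
        change (r j.val (r j.val (a j))).1.1 v = (r j.val (a j)).1.1 v
        simp only [r1, map_add, map_sub, e1, e3]; abel
      comm := fun a b ha hb => funext fun j => ext _ _ fun v => by
        have c : ∀ a : ZMod (n + 1) → (Uni W)ˣ, r j.val (a j) = 1 →
            (∀ v, (a j).1.1 (ε j.val v) = ε j.val v) ∧
              ∀ v, (a j).1.1 v = v + ε j.val ((a j).1.1 v - v) := fun a ha => by
          have c0 : ∀ v, (a j).1.1 v - ε j.val ((a j).1.1 v) + (a j).1.1 (ε j.val v) = v :=
            fun v => by rw [← r1, ha]; rfl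
          have c1 : ∀ v, (a j).1.1 (ε j.val v) = ε j.val v := fun v => by
            simpa [e1, e3] using c0 (ε j.val v)
          exact ⟨c1, fun v => by
            rw [map_sub, ← c1 v]; linear_combination (norm := module) c0 v⟩
        obtain ⟨a1, a2⟩ := c a (congrFun ha j)
        obtain ⟨b1, b2⟩ := c b (congrFun hb j)
        change (a j).1.1 ((b j).1.1 v) = (b j).1.1 ((a j).1.1 v)
        rw [b2 v, map_add, a1, a2 v, map_add, b1, b2 v]
        simp only [map_add, map_sub, e3]; abel }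
  refine ⟨_, inferInstance, inferInstance, D, n + 1, MonoidHom.mulSingle (fun _ => (Uni W)ˣ) 0,
    Pi.mulSingle_injective (M := fun _ => (Uni W)ˣ) 0, fun u => ?_⟩
  have key : ∀ i, i ≤ n + 1 → ∃ a : (Uni W)ˣ, D.τ^[i] (Pi.mulSingle 0 u) =
      Pi.mulSingle (i : ZMod (n + 1)) a ∧ ∀ v ∈ W i, a.1.1 v = v := by
    intro i
    induction i with
    | zero => exact fun _ => ⟨u, by simp, fun v hv => by
        rw [h0, Submodule.mem_bot] at hv; rw [hv, map_zero]⟩
    | succ i ih =>
      intro hi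
      obtain ⟨a, a1, a2⟩ := ih (by omega)
      refine ⟨r i a, funext fun j => ?_, fun v hv => ?_⟩
      · rw [Function.iterate_succ_apply', a1]
        change r (j + -1).val (Pi.mulSingle (M := fun _ => (Uni W)ˣ) (i : ZMod (n + 1)) a (j + -1)) = _
        by_cases c : j + -1 = i
        · rw [c, show j = ((i + 1 : ℕ) : ZMod (n + 1)) by push_cast; linear_combination c,
            Pi.mulSingle_eq_same, Pi.mulSingle_eq_same, ZMod.val_cast_of_lt hi]
        · rw [Pi.mulSingle_eq_of_ne c, map_one, Pi.mulSingle_eq_of_ne]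
          exact fun e => c (by rw [e]; push_cast; ring)
      · have c := (hε i).map_id _ (a.1.2.2 i v hv)
        rw [r1, a2 _ ((hε i).map_mem v)]
        rw [map_sub] at c
        linear_combination (norm := module) -c
  obtain ⟨a, a1, a2⟩ := key (n + 1) le_rfl
  rw [show a = 1 from ext _ _ fun v => a2 v (hn ▸ trivial), Pi.mulSingle_one] at a1
  exact a1

end Lin

theorem exists_fixed {Q V : Type} [Group Q] [Finite Q] {p : ℕ} [Fact p.Prime] (hQ : IsPGroup p Q)
    [AddCommGroup V] [Module (ZMod p) V] [Finite V] [Nontrivial V]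
    (ρ : Representation (ZMod p) Q V) : ∃ v : V, v ≠ 0 ∧ ∀ g, ρ g v = v := by
  let _ : MulAction Q V := MulAction.compHom _ ρ
  obtain ⟨x, hx⟩ := exists_ne (0 : V)
  have h1 : p ∣ Nat.card V := by
    rw [← addOrderOf_eq_prime (x := x) (p := p)
      (by rw [← Nat.cast_smul_eq_nsmul (ZMod p), ZMod.natCast_self, zero_smul]) hx]
    exact addOrderOf_dvd_natCard x
  obtain ⟨b, hb, hne⟩ := hQ.exists_fixed_point_of_prime_dvd_card_of_fixed_point V h1
    (a := 0) fun g => map_zero (ρ g)
  exact ⟨b, hne.symm, hb⟩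

theorem emb_rep {Q V : Type} [Group Q] [Finite Q] {p : ℕ} [Fact p.Prime] (hQ : IsPGroup p Q)
    [AddCommGroup V] [Module (ZMod p) V] [Finite V] (ρ : Representation (ZMod p) Q V)
    (hρ : ∀ g, ρ g = 1 → g = 1) : Emb Q := by
  obtain ⟨W, w0, w1⟩ : ∃ W : ℕ → Submodule (ZMod p) V, W 0 = ⊥ ∧
      ∀ i v, v ∈ W (i + 1) ↔ ∀ g, ρ g v - v ∈ W i :=
    ⟨fun i => Nat.rec ⊥ (fun _ U => ⨅ g, U.comap (ρ g - 1)) i, rfl,
      fun i v => Submodule.mem_iInf _⟩
  have w2 : ∀ i, W i ≤ W (i + 1) := by
    intro i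
    induction i with
    | zero => exact w0 ▸ bot_le
    | succ i ih => exact fun v hv => (w1 _ v).2 fun g => ih ((w1 _ v).1 hv g)
  have w3 : ∀ i g, W i ≤ (W i).comap (ρ g) := fun i g v hv => by
    simpa using add_mem ((w1 i v).1 (w2 i hv) g) hv
  have w4 : ∀ i, W i ≠ ⊤ → W i < W (i + 1) := fun i hi => by
    have : Nontrivial (V ⧸ W i) := Submodule.Quotient.nontrivial_iff.2 hi
    have : Finite (V ⧸ W i) := Finite.of_surjective _ (W i).mkQ_surjective
    obtain ⟨b, hne, hb⟩ := exists_fixed hQ (ρ.quotient (W i) (w3 i))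
    obtain ⟨v, rfl⟩ := (W i).mkQ_surjective b
    exact SetLike.lt_iff_le_and_exists.2 ⟨w2 i, v, (w1 i v).2 fun g =>
      (Submodule.Quotient.eq _).1 (hb g), fun h => hne ((Submodule.Quotient.mk_eq_zero _).2 h)⟩
  obtain ⟨n, hn⟩ : ∃ n, W n = ⊤ := by
    by_contra hh
    push Not at hh
    exact not_injective_infinite_finite W (strictMono_nat_of_lt_succ fun i => w4 i (hh i)).injective
  exact (emb_of_flag (monotone_nat_of_le_succ w2) w0 (eq_top_iff.2 (hn.ge.trans (w2 n)))).of_inj
    (MonoidHom.codRestrict ρ (Uni W) fun g => show ρ g ∈ Uni W from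
      ⟨fun i => w3 i g, fun i v hv => (w1 i v).1 hv g⟩).toHomUnits
    ((injective_iff_map_eq_one _).2 fun g hg => hρ g (congrArg (fun a : (Uni W)ˣ => a.1.1) hg))

theorem emb_pgroup {Q : Type} [Group Q] [Finite Q] {p : ℕ} [Fact p.Prime] (hQ : IsPGroup p Q) :
    Emb Q := by
  classical
  refine emb_rep (V := Q → ZMod p) hQ
    { toFun := fun g => LinearMap.funLeft _ _ fun x => x * g
      map_one' := by ext; simp
      map_mul' := fun a b => by ext; simp [LinearMap.funLeft_apply, mul_assoc] } fun g h1 => ?_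
  have h2 : (Pi.single 1 1 : Q → ZMod p) (1 * g) = (Pi.single 1 1 : Q → ZMod p) 1 :=
    congrFun (LinearMap.congr_fun h1 (Pi.single 1 1)) 1
  by_contra hne
  simp [hne] at h2

theorem emb_nil (Q : Type) [Group Q] [Finite Q] [Group.IsNilpotent Q] : Emb Q := by
  let e := Sylow.directProductOfNormal (G := Q) fun P => inferInstance
  refine (Emb.pi fun p => Emb.pi fun P => ?_).of_inj e.symm.toMonoidHom e.symm.injective
  have : Fact p.1.Prime := ⟨Nat.prime_of_mem_primeFactors p.2⟩
  exact emb_pgroup P.isPGroup'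

end Pool.Agent.P.MP_042d8e_al.CK
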