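import Pool.Agent.P.MP_042d8e_al.CK.Nec
import Pool.Agent.P.MP_042d8e_al.CK.Tri

/-! Elements of the congruence kernel with prescribed labels. -/

set_option autoImplicit false
set_option linter.unusedSectionVars false

open scoped commutatorElement

namespace Pool.Agent.P.MP_042d8e_al.CK

open Po Subgroup SemidirectProduct

/-- the group of labels -/
abbrev Lam {F I : Type} [Group F] (π : F →* Equiv.Perm I) (Z : Type) [Group Z] : Type :=
  (I → Z) ⋊[(mulAutArrow (G := Equiv.Perm I) (A := I) (M := Z)).comp π] F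

/-- the integers -/
abbrev Zm : Type := Multiplicative ℤ

variable {F I : Type} [Group F] {π : F →* Equiv.Perm I}

theorem lam_left {Z : Type} [Group Z] (a b : Lam π Z) (i : I) :
    (a * b).left i = a.left i * b.left ((π a.right)⁻¹ i) := rfl

instance lam_finite {Z : Type} [Group Z] [Finite Z] [Finite I] [Finite F] : Finite (Lam π Z) :=
  .of_equiv _ equivProd.symm

/-- maps between groups of labels -/
def mp {Z Z' : Type} [Group Z] [Group Z'] (φ : Z →* Z') (e : F →* F) (h : ∀ q, π (e q) = π q) :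
    Lam π Z →* Lam π Z' :=
  MonoidHom.mk' (fun l => ⟨fun i => φ (l.left i), e l.right⟩) fun a b =>
    SemidirectProduct.ext (funext fun i => by simp only [lam_left, map_mul, h]) (map_mul e _ _)

theorem lift_emb {A B J : Type} {Y : J → Type} [Group A] [TopologicalSpace A] [CompactSpace A]
    [Group B] [TopologicalSpace B] [∀ j, Group (Y j)] (Ψ : ∀ j, A →* Y j) (Θ : ∀ j, B →* Y j)
    (h1 : ∀ j, IsLocallyConstant (Ψ j)) (h2 : ∀ j, IsLocallyConstant (Θ j))
    (h3 : ∀ a, (∀ j, Ψ j a = 1) → a = 1) (h4 : ∀ b, ∃ a, ∀ j, Ψ j a = Θ j b) :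
    ∃ f : B →* A, Continuous f ∧ ∀ j b, Ψ j (f b) = Θ j b := by
  choose f hf using h4
  have h5 : Function.Injective (MonoidHom.pi Ψ) :=
    (injective_iff_map_eq_one _).2 fun a ha => h3 a (congrFun ha)
  let : ∀ j, TopologicalSpace (Y j) := fun _ => ⊥
  have : ∀ j, DiscreteTopology (Y j) := fun _ => ⟨rfl⟩
  have h6 : Continuous (MonoidHom.pi Ψ) := continuous_pi fun j => (h1 j).continuous
  refine ⟨MonoidHom.mk' f fun a b => h5 (funext fun j => ?_),
    (h6.isClosedEmbedding h5).isInducing.continuous_iff.2 (continuous_pi fun j => ?_),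
    fun j b => hf b j⟩
  · simp only [MonoidHom.pi_apply, map_mul, hf]
  · exact (h2 j).continuous.congr fun b => (hf b j).symm

theorem mem_cl_ker {G Y : Type} [Group G] [Group Y] {t : Hat G →* Y} (h : IsLocallyConstant t)
    {x : Hat G} (hx : t x = 1) : x ∈ cl (t.comp et).ker := mem_cl.2 fun N => by
  obtain ⟨g, -, e⟩ := approx (cl_top x) ((pj_lc N).prodMk h)
  exact ⟨g, (Prod.mk.inj e).2.trans hx, (Prod.mk.inj e).1.symm⟩

/-- the reflection in the retraction -/
def Ret.rf (D : Ret F) : F →* F := MonoidHom.mk' (fun q => D.ρ q * q⁻¹ * D.ρ q) fun a b => by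
  have := D.comm (D.ρ b * b⁻¹) (a⁻¹ * D.ρ a) (by simp [D.idem]) (by simp [D.idem])
  calc _ = D.ρ a * (D.ρ b * b⁻¹ * (a⁻¹ * D.ρ a)) * D.ρ b := by simp only [map_mul]; group
    _ = _ := by rw [this]; group

/-- powers of the step -/
def Ret.τp (D : Ret F) (n : ℕ) : F →* F := MonoidHom.mk' D.τ^[n] (iterate_map_mul D.τ n)

theorem Ret.τp_apply (D : Ret F) (n : ℕ) (q : F) : D.τp n q = D.τ^[n] q := rfl

variable {G X S : Type} [Group G] [Group S] [MulAction S X] [Finite X] [Finite S]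

theorem Md.Br.of_sec {M : Md G X S} {K : Subgroup G} (h : M.Br K) {n : ℕ} {g : G}
    (hg : g ∈ M.St n) (h1 : ∀ u : List X, u.length = n → M.sc g u ∈ K) : g ∈ K :=
  Md.decomp' K hg fun u hu => ⟨h.le u (h1 u hu), h.lc u _ (h1 u hu)⟩

theorem Md.Br.exists_asm {M : Md G X S} {K : Subgroup G} (h : M.Br K) (f : X → G)
    (hf : ∀ x, f x ∈ K) : ∃ k ∈ K, k ∈ M.St 1 ∧ ∀ x, M.sc k [x] = f x := by
  let f' : List X → Po X S := fun u => match u with
    | [x] => M.j (f x)
    | _ => 1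
  obtain ⟨k, hk⟩ := decomp M.j.range (asm_St 1 f') fun u hu => by
    obtain ⟨x, rfl⟩ := List.length_eq_one_iff.1 hu
    rw [sec_asm _ hu]
    exact h.le _ (hf x)
  have h1 : k ∈ M.St 1 := by rw [mem_comap, hk]; exact asm_St _ _
  have h2 : ∀ x, M.sc k [x] = f x := fun x => M.inj (by rw [M.j_sc, hk, sec_asm _ (by simp)])
  refine ⟨k, h.of_sec h1 fun u hu => ?_, h1, h2⟩
  obtain ⟨x, rfl⟩ := List.length_eq_one_iff.1 hu
  exact h2 x ▸ hf x

/-- a labelling of a self-similar group -/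
structure Lb (M : Md G X S) (D : Ret F) (π : F →* Equiv.Perm I) where
  L : G →* Lam π Zm
  b : X
  c : X
  o : X
  bc : b ≠ c
  ob : o ≠ b
  oc : o ≠ c
  πρ : ∀ q, π (D.ρ q) = π q
  πθ : ∀ q, π (D.θ q) = π q
  br : M.Br L.ker
  perf : L.ker ≤ ⁅L.ker, L.ker⁆
  r1 : ∀ q, ∃ g ∈ M.St 1, L g = inr (D.θ q) ∧ ∀ x, L (M.sc g [x]) = inr q
  r2 : ∀ a x, ∃ g h, M.j g = loc [x] (M.j h) ∧ L g = inl a ∧ L h = inl a
  r3 : ∀ α, D.ρ α = 1 → ∃ g ∈ M.St 1, L g = 1 ∧ L (M.sc g [c]) = inr α ∧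
    L (M.sc g [b]) = inr α⁻¹ ∧ ∀ x, x ≠ c → x ≠ b → L (M.sc g [x]) = 1

namespace Lb

variable {M : Md G X S} {D : Ret F} (B : Lb M D π)

/-- the branching subgroup -/
def K : Subgroup G := (rightHom.comp B.L).ker

instance : B.K.Normal := MonoidHom.normal_ker _

instance [Finite F] : B.K.FiniteIndex := finiteIndex_ker _

theorem K_br : M.Br B.K := Md.Br.of_letter fun x k hk => by
  obtain ⟨g, h, e, h1, h2⟩ := B.r2 (B.L k).left x
  have h3 : k * h⁻¹ ∈ B.L.ker := by
    rw [MonoidHom.mem_ker, map_mul, map_inv, h2, mul_inv_eq_one]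
    exact SemidirectProduct.ext rfl hk
  refine ⟨M.lc [x] (k * h⁻¹) * g, mul_mem (congrArg rightHom (B.br.lc _ _ h3) :)
    (congrArg rightHom h1 :), ?_⟩
  rw [map_mul, Md.j_lc (B.br.le _ h3), e, ← map_mul, ← map_mul, inv_mul_cancel_right]

/-- the local configurations that occur -/
def Rz (l : Lam π Zm) (f : X → Lam π Zm) : Prop :=
  ∃ g ∈ M.St 1, B.L g = l ∧ ∀ x, B.L (M.sc g [x]) = f x

theorem Rz.mul {B : Lb M D π} {l l' : Lam π Zm} {f f' : X → Lam π Zm} (h : B.Rz l f)
    (h' : B.Rz l' f') : B.Rz (l * l') fun x => f x * f' x := by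
  obtain ⟨g, hg, rfl, h1⟩ := h
  obtain ⟨g', hg', rfl, h2⟩ := h'
  exact ⟨g * g', mul_mem hg hg', map_mul _ _ _, fun x => by
    rw [Md.sc_mul_St g hg' (by simp), map_mul, h1, h2]⟩

theorem real (n : ℕ) : ∀ l : List X → Lam π Zm, (∀ v, B.Rz (l v) fun x => l (x :: v)) →
    ∃ g ∈ M.St n, ∀ v : List X, v.length ≤ n → B.L (M.sc g v) = l v := by
  induction n with
  | zero =>
    intro l h
    obtain ⟨g, -, h1, -⟩ := h []
    exact ⟨g, fun v hv => absurd hv (by simp), fun v hv => by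
      rw [List.length_eq_zero_iff.1 (Nat.le_zero.1 hv), Md.sc_nil, h1]⟩
  | succ n ih =>
    intro l h
    obtain ⟨g, hg, h1, h2⟩ := h []
    choose f hf h3 using fun x => ih (fun v => l (v ++ [x])) fun v => h _
    obtain ⟨k, hk, h4, h5⟩ := B.br.exists_asm (fun x => f x * (M.sc g [x])⁻¹) fun x => by
      have := h3 x [] (by simp)
      rw [Md.sc_nil] at this
      rw [MonoidHom.mem_ker, map_mul, map_inv, this, h2]
      exact mul_inv_cancel _
    have h6 : ∀ x, M.sc (k * g) [x] = f x := fun x => by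
      rw [Md.sc_mul_St k hg (by simp), h5, inv_mul_cancel_right]
    refine ⟨k * g, fun v hv => ?_, fun v hv => ?_⟩ <;>
      rcases List.eq_nil_or_concat' v with rfl | ⟨w, x, rfl⟩
    · exact mul_mem h4 hg [] (by simp)
    · have := hf x w (by simpa using hv)
      rwa [← h6, M.j_sc] at this
    · rw [Md.sc_nil, map_mul, h1, MonoidHom.mem_ker.1 hk, one_mul]
    · rw [← Md.sc_sc, h6, h3 x w (by simpa using hv)]

open Classical

theorem R2 (a : I → Zm) (x : X) : B.Rz (inl a) fun y => if y = x then inl a else 1 := by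
  obtain ⟨g, h, e, h1, h2⟩ := B.r2 a x
  refine ⟨g, by rw [mem_comap, e]; exact loc_St [x] _, h1, fun y => ?_⟩
  beta_reduce
  split_ifs with hy
  · rw [hy, ← h2]
    exact congrArg _ (M.inj (by rw [M.j_sc, e, sec_loc]))
  · rw [← map_one B.L]
    exact congrArg _ (M.inj (by rw [M.j_sc, e, sec_loc_ne _ (by simp) (by simpa using hy), map_one]))

/-- the endomorphism attached to a letter -/
noncomputable def rh (x : X) : F →* F :=
  if x = B.c then MonoidHom.id F else if x = B.b then D.rf else D.ρ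

/-- the exponent attached to a letter -/
noncomputable def χ (x : X) : ℤ := if x = B.c then 1 else if x = B.b then -1 else 0

theorem A1 (a : I → Zm) (q : F) :
    B.Rz ⟨a, q⟩ fun x => ⟨if x = B.c then a else 1, D.θ.symm q⟩ := by
  convert (B.R2 a B.c).mul (B.r1 (D.θ.symm q)) using 1
  · simp
  · ext1 x; split_ifs <;> simp [mk_eq_inl_mul_inr]

theorem A2 (a : I → Zm) (q : F) : B.Rz ⟨1, D.τ q⟩ fun x => ⟨a ^ B.χ x, B.rh x q⟩ := by
  obtain ⟨g, hg, h1, h2, h3, h4⟩ := B.r3 (q * (D.ρ q)⁻¹) (by simp [D.idem])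
  convert (((B.R2 a B.c).mul (B.R2 a⁻¹ B.b)).mul ⟨g, hg, h1, fun _ => rfl⟩).mul
    (B.r1 (D.ρ q)) using 1
  · simp [Ret.τ]
  · ext1 x
    rw [χ, rh, mk_eq_inl_mul_inr]
    by_cases hc : x = B.c
    · simp [hc, B.bc.symm, h2, mul_assoc]
    by_cases hb : x = B.b
    · simp [hb, B.bc, h3, Ret.rf, mul_assoc]
    · simp [hb, hc, h4 x hc hb]

/-- the states of the machine that writes the labels -/
abbrev Sta (F : Type) [Group F] : Type := ℕ × (ℕ ⊕ (F →* F) × ℤ)

/-- the transitions -/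
noncomputable def nxt (N : ℕ) (x : X) : Sta F → Sta F
  | (k, .inl j) => if x = B.c ∧ j ≠ 0 then (k, .inl (j - 1)) else
      if x = B.o ∧ j = N then (k + 1, .inl N) else
        (k, .inr ((B.rh x).comp (D.τp j), if j = 0 then B.χ x else 0))
  | (k, .inr (e, t)) => (k, .inr (D.θ.symm.toMonoidHom.comp e, if x = B.c then t else 0))

/-- the endomorphism of a state -/
def en (D : Ret F) : Sta F → F →* F
  | (_, .inl j) => D.τp (j + 1)
  | (_, .inr (e, _)) => e

/-- the exponent of a state -/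
def ex : Sta F → ℤ
  | (_, .inl _) => 0
  | (_, .inr (_, t)) => t

theorem loc_rz {N : ℕ} (a : ℕ → I → Zm) (q : ℕ → F) {d : F} (h1 : ∀ k, D.τ^[N] (q k) = d)
    (h2 : D.ρ d = d) (h3 : D.θ d = d) (s : Sta F) :
    B.Rz ⟨a s.1 ^ ex s, en D s (q s.1)⟩ fun x =>
      ⟨a (B.nxt N x s).1 ^ ex (B.nxt N x s), en D (B.nxt N x s) (q (B.nxt N x s).1)⟩ := by
  rcases s with ⟨k, j | ⟨e, t⟩⟩
  · convert B.A2 (if j = 0 then a k else 1) (D.τ^[j] (q k)) using 1
    · simp [ex, en, Ret.τp_apply, Function.iterate_succ_apply']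
    · ext1 x
      rw [nxt]
      by_cases c1 : x = B.c ∧ j ≠ 0
      · obtain ⟨j, rfl⟩ := Nat.exists_eq_succ_of_ne_zero c1.2
        simp [ex, en, rh, c1.1, Ret.τp_apply]
      rw [if_neg c1]
      by_cases c2 : x = B.o ∧ j = N
      · have : D.τ d = d := (congrArg D.θ h2).trans h3
        simp [ex, en, rh, χ, c2.1, c2.2, B.ob, B.oc, Ret.τp_apply, Function.iterate_succ_apply', h1,
          h2, this]
      rw [if_neg c2]
      split_ifs <;> simp [ex, en, Ret.τp_apply]
  · convert B.A1 (a k ^ t) (e (q k)) using 1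
    · rfl
    · ext1 x
      rw [nxt]
      split_ifs <;> simp [ex, en]

/-- the state at a vertex -/
noncomputable def st (N : ℕ) (v : List X) : Sta F := v.foldr (B.nxt N) (0, .inl N)

include B in
theorem π_τp (n : ℕ) (q : F) : π (D.τp n q) = π q := by
  induction n with
  | zero => rfl
  | succ n ih =>
    rw [Ret.τp_apply, Function.iterate_succ_apply']
    exact (B.πθ _).trans ((B.πρ _).trans ih)

theorem π_st (N : ℕ) (v : List X) (q : F) : π (en D (B.st N v) q) = π q := by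
  induction v with
  | nil => exact B.π_τp _ q
  | cons x v ih =>
    change π (en D (B.nxt N x (B.st N v)) q) = _
    rcases h : B.st N v with ⟨k, j | ⟨e, t⟩⟩
    · rw [nxt]
      split_ifs
      iterate 2 exact B.π_τp _ q
      all_goals
        refine .trans ?_ (B.π_τp j q)
        change π (B.rh x _) = _
        rw [rh]
        split_ifs <;> simp [B.πρ, Ret.rf]
    · rw [h] at ih
      exact ((B.πθ _).symm.trans (congrArg π (D.θ.apply_symm_apply _))).trans ih

theorem st_spec (N k : ℕ) : B.st N (B.c :: (List.replicate N B.c ++ List.replicate k B.o)) =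
    (k, .inr (MonoidHom.id F, 1)) := by
  have h1 : B.st N (List.replicate k B.o) = (k, .inl N) := by
    induction k with
    | zero => rfl
    | succ k ih =>
      change B.nxt N B.o (B.st N _) = _
      rw [ih, nxt, if_neg fun h => B.oc h.1, if_pos ⟨rfl, rfl⟩]
  have h2 : ∀ i j, i + j = N → B.st N (List.replicate i B.c ++ List.replicate k B.o) =
      (k, .inl j) := by
    intro i
    induction i with
    | zero => exact fun j h => by rw [← zero_add j, h]; exact h1
    | succ i ih =>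
      intro j h
      change B.nxt N B.c (B.st N (_ ++ _)) = _
      rw [ih (j + 1) (by omega), nxt, if_pos ⟨rfl, by simp⟩, Nat.add_sub_cancel]
  change B.nxt N B.c (B.st N _) = _
  rw [h2 N 0 rfl, nxt, if_neg (by simp), if_neg fun h => B.oc h.1.symm, if_pos rfl, rh, χ,
    if_pos rfl, if_pos rfl]
  rfl

variable [Finite F] [Finite I] [FaithfulSMul S X] [Nontrivial X]

/-- reduction of the labels -/
def red (N : FN Zm) : G →* Lam π (Zm ⧸ N.toSubgroup) :=
  (mp (QuotientGroup.mk' _) (MonoidHom.id F) fun _ => rfl).comp B.L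

theorem eq_one {T : ∀ N : FN Zm, Hat G →* Lam π (Zm ⧸ N.toSubgroup)}
    (h1 : ∀ N, IsLocallyConstant (T N)) (h2 : ∀ N g, T N (et g) = B.red N g) {x : Hat G}
    (hx : x ∈ M.C) (h : ∀ v N, T N (M.σ v x) = 1) : x = 1 := eq_one_of_cl fun N => by
  have : NeZero N.toSubgroup.index := ⟨FiniteIndex.index_ne_zero⟩
  obtain ⟨n, hn⟩ := M.exists_level N.toSubgroup
  refine Md.mem_cl_of_sec (K := B.K) (n := n) ?_ (fun v hv => ⟨B.K_br.le v, fun g hg => ?_⟩)
    (Md.mem_C.1 hx n) fun v _ => mem_cl_ker (h1 (mul_FN N.toSubgroup.index)) (h v _)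
  · exact fun g hg => congrArg SemidirectProduct.right ((h2 _ g).symm.trans hg)
  have h3 := (h2 _ g).symm.trans hg
  choose a ha using fun i => mem_mul_FN.1
    ((QuotientGroup.eq_one_iff _).1 (congrFun (congrArg SemidirectProduct.left h3) i))
  obtain ⟨-, w, -, -, hw⟩ := B.r2 (fun i => .ofAdd (a i)) B.o
  have h4 : w ∈ B.K := (congrArg rightHom hw :)
  have h5 : g * (w ^ N.toSubgroup.index)⁻¹ ∈ B.L.ker := by
    rw [MonoidHom.mem_ker, map_mul, map_inv, map_pow, hw, ← map_pow, mul_inv_eq_one]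
    refine SemidirectProduct.ext (funext fun i => ?_) (congrArg SemidirectProduct.right h3 :)
    rw [left_inl, Pi.pow_apply, ← ofAdd_nsmul, nsmul_eq_mul, ← ha, ofAdd_toAdd]
  obtain ⟨u, hu, e⟩ := hn v hv.ge
  rw [← inv_mul_cancel_right g (w ^ _), Md.lc_mul (B.br.le v h5) (B.K_br.le v (pow_mem h4 _))]
  refine mul_mem (Md.lc_comm (B.br.le v) hu e (B.perf h5)) ?_
  have := pow_index_mem N (Md.lcH (B.K_br.le v) ⟨w, h4⟩)
  rwa [← map_pow] at this

/-- the label written at a vertex -/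
noncomputable def Th (N : ℕ) (v : List X) (N' : FN Zm) :
    Lam π (Hat Zm) →* Lam π (Zm ⧸ N'.toSubgroup) :=
  mp ((zpowGroupHom (ex (B.st N v))).comp (pj N')) _ (B.π_st N v)

theorem Th_apply (N : ℕ) (v : List X) (N' : FN Zm) (l : Lam π (Hat Zm)) : B.Th N v N' l =
    ⟨fun i => pj N' (l.left i) ^ ex (B.st N v), en D (B.st N v) l.right⟩ := rfl

theorem exists_x {T : ∀ N : FN Zm, Hat G →* Lam π (Zm ⧸ N.toSubgroup)}
    (t1 : ∀ N, IsLocallyConstant (T N)) (t2 : ∀ N g, T N (et g) = B.red N g) {N : ℕ}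
    (l : ℕ → Lam π (Hat Zm)) {d : F} (h1 : ∀ k, D.τ^[N] (l k).right = d) (h2 : D.ρ d = d)
    (h3 : D.θ d = d) : ∃ x ∈ M.C, ∀ v N', T N' (M.σ v x) = B.Th N v N' (l (B.st N v).1) := by
  obtain ⟨x, hx⟩ := CompactSpace.iInter_nonempty (t := fun j : ℕ × FN Zm =>
    (cl (M.St j.1) : Set (Hat G)) ∩ ⋂ v : {v : List X // v.length ≤ j.1},
      {x | T j.2 (M.σ v x) = B.Th N v j.2 (l (B.st N v).1)})
    (fun j => (cl_closed _).inter (isClosed_iInter fun v =>
      ((t1 j.2).comp_continuous (M.σ_cont v)).isClosed_fiber _)) fun s => by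
      choose a _ ha using fun k i => approx (cl_top ((l k).left i))
        (lc_pi fun j : s => pj_lc j.1.2)
      obtain ⟨g, hg, e⟩ := B.real (s.sup Prod.fst) _ fun v =>
        B.loc_rz a (fun k => (l k).right) h1 h2 h3 (B.st N v)
      refine ⟨et g, Set.mem_iInter₂.2 fun j hj => ⟨et_cl (St_anti (Finset.le_sup hj) hg),
        Set.mem_iInter.2 fun v => ?_⟩⟩
      rw [Set.mem_ofPred_eq, Md.σ_et, t2, red, MonoidHom.comp_apply,
        e v (v.2.trans (Finset.le_sup hj)), Th_apply]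
      exact SemidirectProduct.ext (funext fun i =>
        (map_zpow _ _ _).trans (congrArg (· ^ _) (congrFun (ha _ i) ⟨j, hj⟩))) rfl
  rw [Set.mem_iInter] at hx
  exact ⟨x, Md.mem_C.2 fun n => (hx (n, mul_FN 1)).1, fun v N' =>
    Set.mem_iInter.1 (hx (v.length, N')).2 ⟨v, le_rfl⟩⟩

include B in
theorem embed {P : Type} [Group P] [TopologicalSpace P] (γ : ℕ → P →* Lam π (Hat Zm)) (d : P → F)
    (N : ℕ) (h1 : ∀ p k, D.τ^[N] (γ k p).right = d p) (h2 : ∀ p, D.ρ (d p) = d p)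
    (h3 : ∀ p, D.θ (d p) = d p) (c1 : ∀ k i, Continuous fun p => (γ k p).left i)
    (c2 : ∀ k, IsLocallyConstant fun p => (γ k p).right) (inj : ∀ p, (∀ k, γ k p = 1) → p = 1) :
    ∃ f : P →* Hat G, Continuous f ∧ Function.Injective f ∧ ∀ p, f p ∈ M.C := by
  choose T t1 t2 using fun N => ext_hom_fin (B.red N)
  have : CompactSpace M.C := isCompact_iff_compactSpace.1 M.C_closed.isCompact
  obtain ⟨f, hf, e⟩ := lift_emb
    (fun j : List X × FN Zm => (T j.2).comp (M.C.subtype.comp (M.σC j.1)))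
    (fun j => (B.Th N j.1 j.2).comp (γ (B.st N j.1).1))
    (fun j => (t1 j.2).comp_continuous ((M.σ_cont j.1).comp continuous_subtype_val))
    (fun j => ((lc_pi fun i => (pj_lc j.2).comp_continuous (c1 _ i)).prodMk (c2 _)).comp
      fun z => (⟨fun i => z.1 i ^ ex (B.st N j.1), en D (B.st N j.1) z.2⟩ : Lam π _))
    (fun a ha => Subtype.ext (B.eq_one t1 t2 a.2 fun v N => ha (v, N))) fun p => by
      obtain ⟨x, hx, e⟩ := B.exists_x t1 t2 (fun k => γ k p) (h1 p) (h2 p) (h3 p)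
      exact ⟨⟨x, hx⟩, fun j => e j.1 j.2⟩
  refine ⟨M.C.subtype.comp f, continuous_subtype_val.comp hf,
    (injective_iff_map_eq_one _).2 fun p hp => inj p fun k => ?_, fun p => (f p).2⟩
  have h4 : ∀ N', (⟨fun i => pj N' ((γ k p).left i) ^ (1 : ℤ), (γ k p).right⟩ : Lam π _) = 1 :=
    fun N' => by
      have := e (B.c :: (List.replicate N B.c ++ List.replicate k B.o), N') p
      rw [Subtype.ext (p := (· ∈ M.C)) (a2 := 1) hp, map_one, MonoidHom.comp_apply, Th_apply,
        B.st_spec] at this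
      exact this.symm
  exact SemidirectProduct.ext (funext fun i => pj_ext fun N' => (zpow_one _).symm.trans
    (congrFun (congrArg left (h4 N')) i)) (congrArg right (h4 (mul_FN 1)) :)

end Lb

end Pool.Agent.P.MP_042d8e_al.CK
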