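import Pool.Agent.P.MP_042d8e_al.CK.Big
import Pool.Agent.P.MP_042d8e_al.CK.Dat

/-! From permutations of words to portraits and back. -/

set_option autoImplicit false
set_option linter.unusedSectionVars false

open scoped commutatorElement

namespace Pool.Agent.P.MP_042d8e_al.CK

open Po Subgroup SemidirectProduct

variable {X S : Type} [Group S] [MulAction S X] [FaithfulSMul S X] [Finite X] [Finite S]
  {G : Subgroup (Equiv.Perm (List X))}

theorem po_ext {a b : Po X S} (h : ∀ v : List X, a • v = b • v) : a = b := by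
  by_contra hne
  obtain ⟨u, hu⟩ := exists_moved (g := b⁻¹ * a) fun e => hne (inv_mul_eq_one.1 e).symm
  exact hu (by rw [mul_smul, h, inv_smul_smul])

theorem levelStab_eq (M : Md G X S) (h : ∀ g v, g.1 v = M.j g • v) : levelStab G = M.St := by
  refine funext fun n => Subgroup.ext fun g => ?_
  rw [levelStab, mem_iInf]
  refine ⟨fun hg w hw => eq_of_smul_eq_smul (α := X) fun x => ?_,
    fun hg v => (h g v).trans (St_fix hg v.2.le)⟩
  have := (h g _).symm.trans
    (hg ⟨List.replicate (n - (w.length + 1)) x ++ x :: w, by simp; omega⟩)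
  rw [smul_append] at this
  exact (List.cons.inj (List.append_inj_right' this (len _ (x :: w)))).1.trans (one_smul _ _).symm

theorem Md.st_nt {G : Type} [Group G] (M : Md G X S) :
    Antitone M.St ∧ (∀ i, (M.St i).Normal ∧ (M.St i).FiniteIndex) ∧ ⨅ i, M.St i = ⊥ :=
  ⟨fun _ _ h => comap_mono (St_anti h), fun _ => ⟨inferInstance, inferInstance⟩,
    eq_bot_iff.2 fun g hg => M.inj ((funext fun v =>
      mem_iInf.1 hg (v.length + 1) v (by simp)).trans (map_one M.j).symm)⟩

/-- the congruence kernel contains the kernel of every normal T-sequence -/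
theorem Md.Br.seqKer_le [Nontrivial X] {G : Type} [Group G] {M : Md G X S} {K : Subgroup G}
    [K.Normal] [K.FiniteIndex] (hK : M.Br K) (N : NT G) : seqKer N.1 ≤ M.C := by
  refine le_iInf fun n => ?_
  by_contra hh
  have h1 : ∀ i, ∃ g ∈ N.1 i, g ∉ M.St n := fun i => SetLike.not_le_iff_exists.1 fun h =>
    hh ((iInf_le _ i).trans (cl_mono h))
  obtain ⟨m, hm⟩ := M.exists_level K
  obtain ⟨x⟩ : Nonempty X := inferInstance
  let v := List.replicate (n + m) x
  have h2 : ∀ a ∈ K, ∀ b ∈ K, a * b = b * a := fun a ha b hb => by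
    have hc := commutator_mem_commutator ha hb
    have : M.lc v ⁅a, b⁆ ∈ ⨅ i, N.1 i := mem_iInf.2 fun i => by
      have := (N.2.2.1 i).1
      obtain ⟨g, hg, h3⟩ := h1 i
      obtain ⟨u, hu, h4⟩ : ∃ u : List X, u.length ≤ n ∧ M.j g • u ≠ u := by
        by_contra c
        push Not at c
        exact h3 fun w hw => eq_of_smul_eq_smul (α := X) fun y =>
          (List.cons.inj (c (y :: w) hw)).1.trans (one_smul S y).symm
      obtain ⟨s, hs⟩ := M.trans (List.replicate (n + m - u.length) x ++ u) v (by simp [v]; omega)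
      refine Md.lc_comm (hK.le v) (this.conj_mem g hg s) ?_ hc
      rw [← hs, map_mul, map_mul, map_inv, mul_smul, inv_smul_smul, mul_smul, Ne,
        smul_left_cancel_iff, smul_append]
      exact fun h => h4 (List.append_inj_right' h (len _ _))
    rw [N.2.2.2, mem_bot] at this
    rw [← commutatorElement_eq_one_iff_mul_comm, ← Md.sc_lc (hK.le v (K.commutator_le_self hc)),
      this]
    exact M.inj (by rw [M.j_sc, map_one, sec_one])
  obtain ⟨g, hg, h3⟩ := hm v (by simp [v])
  obtain ⟨k, hk, h4⟩ := M.exists_ne_one K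
  have h5 := congrArg (fun a => sec (M.j a) v)
    (mul_inv_eq_of_eq_mul (h2 g hg _ (hK.lc v k hk)))
  simp only [map_mul, map_inv, Md.j_lc (hK.le v hk)] at h5
  rw [conj_loc, sec_loc, sec_loc_ne _ (len _ _).symm h3.symm] at h5
  exact h4 (M.inj (h5.symm.trans (map_one _).symm))

theorem regBranch_of (M : Md G X S) (h : ∀ g v, g.1 v = M.j g • v) {K : Subgroup G} [K.Normal]
    [K.FiniteIndex] (hK : M.Br K) : RegBranch G where
  root g hg := h ⟨g, hg⟩ []
  child g hg x v := ⟨_, by rw [h ⟨g, hg⟩, h ⟨g, hg⟩ v, smul_cons]⟩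
  trans v w e := by
    obtain ⟨g, hg⟩ := M.trans v w e
    exact ⟨g, g.2, (h g v).trans hg⟩
  selfSim g hg u := ⟨_, (M.sc ⟨g, hg⟩ u).2, fun w => by
    rw [h ⟨g, hg⟩, h ⟨g, hg⟩ u, h, M.j_sc, smul_append]⟩
  branch := ⟨K, ‹_›, ‹_›, fun k hk x => ⟨M.lc [x] k, hK.lc _ k hk, fun w => by
    rw [h, h, Md.j_lc (hK.le _ hk), smul_append, sec_loc, St_fix (loc_St _ _) le_rfl],
    fun y hy w => by
      rw [h, Md.j_lc (hK.le _ hk), smul_append, sec_loc_ne _ (by simp) (by simpa using hy),
        St_fix (loc_St [x] _) (by simp), one_smul]⟩⟩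

theorem RegBranch.md (hG : RegBranch G) : ∃ M : Md G X (Equiv.Perm X),
    (∀ g v, g.1 v = M.j g • v) ∧ ∃ K : Subgroup G, K.Normal ∧ K.FiniteIndex ∧ M.Br K := by
  choose y hy using fun g : G => hG.child g.1 g.2
  let j : G → Po X (Equiv.Perm X) := fun g v => .ofBijective (y g · v)
    (Finite.injective_iff_bijective.1 fun a b e =>
      (List.cons.inj (g.1.injective ((hy g a v).trans ((congrArg (· :: g.1 v) e).trans
        (hy g b v).symm)))).1)
  have h : ∀ (g : G) v, g.1 v = j g • v := fun g v => by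
    induction v with
    | nil => exact hG.root g.1 g.2
    | cons x v ih => rw [hy, ih]; rfl
  choose sc h1 h2 using fun g : G => hG.selfSim g.1 g.2
  obtain ⟨K, a, b, c⟩ := hG.branch
  refine ⟨⟨MonoidHom.mk' j fun a b => po_ext fun v => by rw [mul_smul, ← h, ← h, ← h]; rfl,
    fun a b e => Subtype.ext (Equiv.ext fun v => by rw [h, h]; exact congrArg (· • v) e),
    fun g u => ⟨sc g u, h1 g u⟩, fun g u => po_ext fun w => ?_, fun v w e => ?_⟩, h, K, a, b,
    Md.Br.of_letter fun x k hk => ?_⟩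
  · have := h2 g u w
    rw [h, h, smul_append] at this
    exact (h _ w).symm.trans (List.append_cancel_right this).symm
  · obtain ⟨g, hg, e⟩ := hG.trans v w e
    exact ⟨⟨g, hg⟩, (h _ v).symm.trans e⟩
  · obtain ⟨m, hm, c1, c2⟩ := c k hk x
    refine ⟨m, hm, po_ext fun v => (h m v).symm.trans ?_⟩
    rcases List.eq_nil_or_concat' v with rfl | ⟨w, z, rfl⟩
    · exact hG.root m.1 m.2
    rw [smul_append, St_fix (loc_St [x] _) (by simp)]
    by_cases e : z = x
    · rw [e, c1, sec_loc, h]; rfl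
    · rw [c2 z e, sec_loc_ne _ (by simp) (by simpa using e), one_smul]

theorem exists_group {F I : Type} [Group F] [Finite F] [Finite I] (D : Ret F)
    (π : F →* Equiv.Perm I) (h1 : ∀ q, π (D.ρ q) = π q) (h2 : ∀ q, π (D.θ q) = π q) :
    ∃ (X S : Type) (_ : Group S) (_ : MulAction S X) (_ : Finite X) (_ : Finite S)
      (_ : FaithfulSMul S X) (_ : Nontrivial X) (G : Subgroup (Equiv.Perm (List X)))
      (M : Md G X S), Group.FG G ∧ (∀ g v, g.1 v = M.j g • v) ∧ Nonempty (Lb M D π) := by
  obtain ⟨X, S, _, _, _, _, _, _, T, rfl, rfl⟩ := exists_dt D π h1 h2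
  have := Fintype.ofFinite I
  let φ : T.TT →* Equiv.Perm (List X) :=
    (MulAction.toPermHom (Po X S) _).comp ((MonoidHom.fst _ _).comp T.TT.subtype)
  have hφ : Function.Injective φ := (injective_iff_map_eq_one _).2 fun g hg => by
    have : g.1.1 = 1 := po_ext fun v => (Equiv.congr_fun hg v).trans (one_smul _ _).symm
    exact Subtype.ext (Prod.ext this (Dt.TT_inj g.2 this))
  obtain ⟨M, a, b⟩ := Dt.exists_lb (MonoidHom.ofInjective hφ).symm
  have := (Group.fg_iff_subgroup_fg _).2 T.TT_fg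
  refine ⟨X, S, _, _, inferInstance, ‹_›, ‹_›, ‹_›, φ.range, M, inferInstance, fun g v => ?_, b⟩
  rw [a, ← MonoidHom.apply_ofInjective_symm hφ g]
  rfl

end Pool.Agent.P.MP_042d8e_al.CK
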